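import Pool.Agent.Helper87.CC.Fib2
import Pool.Agent.Helper87.CC.Fam

/-!
# Products of geometric classes
-/

namespace Pool.Agent.Helper20.BL

open TensorProduct Polynomial
open Pool.Agent.Helper87.CC

section Cop

variable {K : Type} [CommRing K]

/-- `X` is the coproduct of the `K`-algebras `R` and `C` -/
structure IsTK {R C X : Type} [CommRing R] [CommRing C] [CommRing X] [Algebra K R] [Algebra K C]
    [Algebra K X] (i : R →ₐ[K] X) (j : C →ₐ[K] X) : Prop where
  ex : ∀ (E : Type) [CommRing E] [Algebra K E] (f : R →ₐ[K] E) (g : C →ₐ[K] E),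
    ∃ h : X →ₐ[K] E, h.comp i = f ∧ h.comp j = g
  uniq : ∀ (E : Type) [CommRing E] [Algebra K E] (h h' : X →ₐ[K] E), h.comp i = h'.comp i →
    h.comp j = h'.comp j → h = h'

variable {R C X : Type} [CommRing R] [CommRing C] [CommRing X] [Algebra K R] [Algebra K C]
    [Algebra K X]

theorem isTK_tensor (K R C : Type) [CommRing K] [CommRing R] [CommRing C] [Algebra K R]
    [Algebra K C] : IsTK (K := K) (Algebra.TensorProduct.includeLeft : R →ₐ[K] R ⊗[K] C)
      (Algebra.TensorProduct.includeRight : C →ₐ[K] R ⊗[K] C) where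
  ex _ _ _ f g := ⟨Algebra.TensorProduct.lift f g (fun _ _ => Commute.all _ _),
    Algebra.TensorProduct.lift_comp_includeLeft _ _ (fun _ _ => Commute.all _ _),
    Algebra.TensorProduct.lift_comp_includeRight _ _ (fun _ _ => Commute.all _ _)⟩
  uniq _ _ _ _ _ h1 h2 := Algebra.TensorProduct.ext h1 h2

variable {i : R →ₐ[K] X} {j : C →ₐ[K] X}

theorem IsTK.equiv {Y : Type} [CommRing Y] [Algebra K Y] {i' : R →ₐ[K] Y} {j' : C →ₐ[K] Y}
    (h : IsTK i j) (h' : IsTK i' j') : Nonempty (X ≃ₐ[K] Y) := by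
  obtain ⟨f, hf1, hf2⟩ := h.ex Y i' j'
  obtain ⟨g, hg1, hg2⟩ := h'.ex X i j
  refine ⟨AlgEquiv.ofAlgHom f g ?_ ?_⟩
  · apply h'.uniq
    · rw [AlgHom.comp_assoc, hg1, hf1, AlgHom.id_comp]
    · rw [AlgHom.comp_assoc, hg2, hf2, AlgHom.id_comp]
  · apply h.uniq
    · rw [AlgHom.comp_assoc, hf1, hg1, AlgHom.id_comp]
    · rw [AlgHom.comp_assoc, hf2, hg2, AlgHom.id_comp]

/-- an algebra homomorphism from a ring homomorphism -/
theorem exists_algHom {E : Type} [CommRing E] [Algebra K E] (u : X →+* E)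
    (h : ∀ r, u (algebraMap K X r) = algebraMap K E r) :
    ∃ v : X →ₐ[K] E, ∀ x, v x = u x := ⟨{ u with commutes' := h }, fun _ => rfl⟩

/-- the coproduct with `A`, given by a natural description of the homomorphisms from `A` in terms
of those from `R` -/
theorem quot_ex (a : R) {E : Type} [CommRing E] [Algebra K E] (f : R →ₐ[K] E) (hf : f a = 0) :
    ∃ v : (R ⧸ Ideal.span {a}) →ₐ[K] E, ∀ x, v (Ideal.Quotient.mk _ x) = f x := by
  refine ⟨Ideal.Quotient.liftₐ (Ideal.span {a}) f ?_, fun x => rfl⟩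
  intro b hb
  obtain ⟨c, rfl⟩ := Ideal.mem_span_singleton'.1 hb
  rw [map_mul, hf, mul_zero]

theorem quot_ext (a : R) {E : Type} [CommRing E] [Algebra K E]
    {u v : (R ⧸ Ideal.span {a}) →ₐ[K] E}
    (h : ∀ x, u (Ideal.Quotient.mk _ x) = v (Ideal.Quotient.mk _ x)) : u = v := by
  refine AlgHom.ext fun x => ?_
  obtain ⟨y, rfl⟩ := Ideal.Quotient.mk_surjective x
  exact h y

theorem mk_self (a : R) : (Ideal.Quotient.mk (Ideal.span {a}) a) = 0 :=
  Ideal.Quotient.eq_zero_iff_mem.2 (Ideal.mem_span_singleton_self _)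

/-- quotients -/
theorem IsTK.quot (h : IsTK i j) (a : R) :
    Nonempty ((X ⧸ Ideal.span {i a}) ≃ₐ[K] ((R ⧸ Ideal.span {a}) ⊗[K] C)) := by
  obtain ⟨i', hi'⟩ := quot_ex a ((Ideal.Quotient.mkₐ K (Ideal.span {i a})).comp i) (mk_self (i a))
  have h1 : IsTK i' ((Ideal.Quotient.mkₐ K (Ideal.span {i a})).comp j) := by
    refine ⟨?_, ?_⟩
    · intro E _ _ f g
      obtain ⟨u, h1, h2⟩ := h.ex E (f.comp (Ideal.Quotient.mkₐ K (Ideal.span {a}))) g
      have h4 : ∀ r, u (i r) = f (Ideal.Quotient.mk _ r) := fun r => AlgHom.congr_fun h1 r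
      obtain ⟨v, hv⟩ := quot_ex (i a) u (by rw [h4, mk_self, map_zero])
      refine ⟨v, ?_, ?_⟩
      · apply quot_ext
        intro x
        rw [AlgHom.comp_apply, hi']
        exact (hv _).trans (h4 x)
      · rw [← h2]
        exact AlgHom.ext fun x => hv _
    · intro E _ _ u v h1 h2
      apply quot_ext
      have h3 : u.comp (Ideal.Quotient.mkₐ K (Ideal.span {i a})) =
          v.comp (Ideal.Quotient.mkₐ K (Ideal.span {i a})) := by
        apply h.uniq
        · refine AlgHom.ext fun r => ?_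
          have h4 := AlgHom.congr_fun h1 (Ideal.Quotient.mk _ r)
          rw [AlgHom.comp_apply, AlgHom.comp_apply, hi'] at h4
          exact h4
        · exact h2
      exact fun x => AlgHom.congr_fun h3 x
  exact h1.equiv (isTK_tensor K _ C)

theorem away_ex (a : R) {E : Type} [CommRing E] [Algebra K E] (f : R →ₐ[K] E)
    (hu : IsUnit (f a)) :
    ∃ v : Localization.Away a →ₐ[K] E, ∀ x, v (algebraMap R _ x) = f x := by
  have hu' : IsUnit ((f : R →+* E) a) := hu
  have h1 : ∀ x, IsLocalization.Away.lift (S := Localization.Away a) (g := (f : R →+* E)) a hu'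
      (algebraMap R _ x) = f x := fun x => IsLocalization.Away.lift_eq a hu' x
  obtain ⟨v, hv⟩ := exists_algHom (K := K) (IsLocalization.Away.lift (S := Localization.Away a)
    (g := (f : R →+* E)) a hu') (fun r => by
      rw [IsScalarTower.algebraMap_apply K R (Localization.Away a), h1, f.commutes])
  exact ⟨v, fun x => (hv _).trans (h1 x)⟩

theorem away_ext (a : R) {E : Type} [CommRing E] [Algebra K E]
    {u v : Localization.Away a →ₐ[K] E}
    (h : ∀ x, u (algebraMap R _ x) = v (algebraMap R _ x)) : u = v := by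
  have h1 : (u : Localization.Away a →+* E) = v := by
    apply IsLocalization.ringHom_ext (Submonoid.powers a)
    exact RingHom.ext h
  exact AlgHom.ext fun x => RingHom.congr_fun h1 x

/-- localisations -/
theorem IsTK.away (h : IsTK i j) (a : R) :
    Nonempty (Localization.Away (i a) ≃ₐ[K] (Localization.Away a ⊗[K] C)) := by
  let l : X →ₐ[K] Localization.Away (i a) := IsScalarTower.toAlgHom K X (Localization.Away (i a))
  let l' : R →ₐ[K] Localization.Away a := IsScalarTower.toAlgHom K R (Localization.Away a)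
  have hu : IsUnit ((l.comp i) a) :=
    IsLocalization.Away.algebraMap_isUnit (S := Localization.Away (i a)) (i a)
  obtain ⟨i', hi'⟩ := away_ex a (l.comp i) hu
  have h1 : IsTK i' (l.comp j) := by
    refine ⟨?_, ?_⟩
    · intro E _ _ f g
      obtain ⟨u, h1, h2⟩ := h.ex E (f.comp l') g
      have h4 : ∀ r, u (i r) = f (algebraMap R _ r) := fun r => AlgHom.congr_fun h1 r
      obtain ⟨v, hv⟩ := away_ex (i a) u (by
        rw [h4]
        exact (IsLocalization.Away.algebraMap_isUnit (S := Localization.Away a) a).map f)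
      refine ⟨v, ?_, ?_⟩
      · apply away_ext
        intro x
        rw [AlgHom.comp_apply, hi']
        exact (hv _).trans (h4 x)
      · rw [← h2]
        exact AlgHom.ext fun x => hv _
    · intro E _ _ u v h1 h2
      apply away_ext
      have h3 : u.comp l = v.comp l := by
        apply h.uniq
        · refine AlgHom.ext fun r => ?_
          have h4 := AlgHom.congr_fun h1 (algebraMap R _ r)
          rw [AlgHom.comp_apply, AlgHom.comp_apply, hi'] at h4
          exact h4
        · exact h2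
      exact fun x => AlgHom.congr_fun h3 x
  exact h1.equiv (isTK_tensor K _ C)

theorem poly_ex {E : Type} [CommRing E] [Algebra K E] (f : R →ₐ[K] E) (t : E) :
    ∃ v : R[X] →ₐ[K] E, (∀ x, v (Polynomial.C x) = f x) ∧ v Polynomial.X = t := by
  obtain ⟨v, hv⟩ := exists_algHom (K := K) (Polynomial.eval₂RingHom (f : R →+* E) t) (fun r => by
    rw [Polynomial.algebraMap_apply, Polynomial.coe_eval₂RingHom, Polynomial.eval₂_C]
    exact f.commutes r)
  refine ⟨v, fun x => (hv _).trans ?_, (hv _).trans ?_⟩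
  · rw [Polynomial.coe_eval₂RingHom, Polynomial.eval₂_C]
    rfl
  · rw [Polynomial.coe_eval₂RingHom, Polynomial.eval₂_X]

theorem poly_ext {E : Type} [CommRing E] [Algebra K E] {u v : R[X] →ₐ[K] E}
    (h : ∀ r, u (Polynomial.C r) = v (Polynomial.C r)) (hX : u Polynomial.X = v Polynomial.X) :
    u = v := by
  have h1 : (u : R[X] →+* E) = v := Polynomial.ringHom_ext h hX
  exact AlgHom.ext fun x => RingHom.congr_fun h1 x

/-- polynomials -/
theorem IsTK.poly (h : IsTK i j) : Nonempty (X[X] ≃ₐ[K] (R[X] ⊗[K] C)) := by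
  let l : X →ₐ[K] X[X] := Polynomial.CAlgHom
  let l' : R →ₐ[K] R[X] := Polynomial.CAlgHom
  obtain ⟨i', hi', hi''⟩ := poly_ex (l.comp i) (Polynomial.X : X[X])
  have h1 : IsTK i' (l.comp j) := by
    refine ⟨?_, ?_⟩
    · intro E _ _ f g
      obtain ⟨u, h1, h2⟩ := h.ex E (f.comp l') g
      have h4 : ∀ r, u (i r) = f (Polynomial.C r) := fun r => AlgHom.congr_fun h1 r
      obtain ⟨v, hv, hv'⟩ := poly_ex u (f Polynomial.X)
      refine ⟨v, ?_, ?_⟩
      · apply poly_ext
        · intro x
          rw [AlgHom.comp_apply, hi']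
          exact (hv _).trans (h4 x)
        · rw [AlgHom.comp_apply, hi'', hv']
      · rw [← h2]
        exact AlgHom.ext fun x => hv _
    · intro E _ _ u v h1 h2
      apply poly_ext
      · have h3 : u.comp l = v.comp l := by
          apply h.uniq
          · refine AlgHom.ext fun r => ?_
            have h4 := AlgHom.congr_fun h1 (Polynomial.C r)
            rw [AlgHom.comp_apply, AlgHom.comp_apply, hi'] at h4
            exact h4
          · exact h2
        exact fun x => AlgHom.congr_fun h3 x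
      · have h4 := AlgHom.congr_fun h1 Polynomial.X
        rw [AlgHom.comp_apply, AlgHom.comp_apply, hi''] at h4
        exact h4
  exact h1.equiv (isTK_tensor K _ C)

theorem root_ex {g : R[X]} {E : Type} [CommRing E] [Algebra K E] (f : R →ₐ[K] E) (t : E)
    (ht : g.eval₂ (f : R →+* E) t = 0) :
    ∃ v : AdjoinRoot g →ₐ[K] E, (∀ x, v (AdjoinRoot.of g x) = f x) ∧
      v (AdjoinRoot.root g) = t := by
  obtain ⟨v, hv⟩ := exists_algHom (K := K) (AdjoinRoot.lift (f : R →+* E) t ht) (fun r => by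
    rw [AdjoinRoot.algebraMap_eq', RingHom.comp_apply, AdjoinRoot.lift_of]
    exact f.commutes r)
  exact ⟨v, fun x => (hv _).trans (AdjoinRoot.lift_of ht), (hv _).trans (AdjoinRoot.lift_root ht)⟩

theorem root_ext {E : Type} [CommRing E] [Algebra K E] {g : R[X]} {u v : AdjoinRoot g →ₐ[K] E}
    (h : ∀ r, u (AdjoinRoot.of g r) = v (AdjoinRoot.of g r))
    (hX : u (AdjoinRoot.root g) = v (AdjoinRoot.root g)) : u = v := by
  have h1 : (u : AdjoinRoot g →+* E) = v := AdjoinRoot.ringHom_ext (RingHom.ext h) hX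
  exact AlgHom.ext fun x => RingHom.congr_fun h1 x

/-- the structure map -/
theorem exists_ofA (g : R[X]) : ∃ v : R →ₐ[K] AdjoinRoot g, ∀ r, v r = AdjoinRoot.of g r :=
  exists_algHom (AdjoinRoot.of g) (fun r => by
    rw [AdjoinRoot.algebraMap_eq', RingHom.comp_apply])

/-- adjoining roots -/
theorem IsTK.root (h : IsTK i j) (g : R[X]) :
    Nonempty (AdjoinRoot (g.map (i : R →+* X)) ≃ₐ[K] (AdjoinRoot g ⊗[K] C)) := by
  obtain ⟨l, hl⟩ := exists_ofA (K := K) (g.map (i : R →+* X))
  obtain ⟨l', hl'⟩ := exists_ofA (K := K) g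
  have hr : g.eval₂ ((l.comp i : R →ₐ[K] _) : R →+* _) (AdjoinRoot.root (g.map (i : R →+* X))) =
      0 := by
    have h1 := AdjoinRoot.eval₂_root (g.map (i : R →+* X))
    rw [Polynomial.eval₂_map] at h1
    have h2 : ((l.comp i : R →ₐ[K] _) : R →+* _) =
        (AdjoinRoot.of (g.map (i : R →+* X))).comp (i : R →+* X) := RingHom.ext fun r => hl _
    rw [h2]
    exact h1
  obtain ⟨i', hi', hi''⟩ := root_ex (l.comp i) _ hr
  have h1 : IsTK i' (l.comp j) := by
    refine ⟨?_, ?_⟩
    · intro E _ _ f g'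
      obtain ⟨u, h1, h2⟩ := h.ex E (f.comp l') g'
      have h4 : ∀ r, u (i r) = f (AdjoinRoot.of g r) := fun r =>
        (AlgHom.congr_fun h1 r).trans (congrArg f (hl' r))
      have h3 : (g.map (i : R →+* X)).eval₂ (u : X →+* E) (f (AdjoinRoot.root g)) = 0 := by
        rw [Polynomial.eval₂_map]
        have h5 : (u : X →+* E).comp (i : R →+* X) = (f : AdjoinRoot g →+* E).comp
            (AdjoinRoot.of g) := RingHom.ext fun r => h4 r
        have h6 := congrArg (f : AdjoinRoot g →+* E) (AdjoinRoot.eval₂_root g)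
        rw [Polynomial.hom_eval₂, map_zero, ← h5] at h6
        exact h6
      obtain ⟨v, hv, hv'⟩ := root_ex u _ h3
      refine ⟨v, ?_, ?_⟩
      · apply root_ext
        · intro x
          rw [AlgHom.comp_apply, hi', AlgHom.comp_apply, hl]
          exact (hv _).trans (h4 x)
        · rw [AlgHom.comp_apply, hi'', hv']
      · rw [← h2]
        refine AlgHom.ext fun x => ?_
        rw [AlgHom.comp_apply, AlgHom.comp_apply, hl]
        exact hv _
    · intro E _ _ u v h1 h2
      apply root_ext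
      · have h3 : u.comp l = v.comp l := by
          apply h.uniq
          · refine AlgHom.ext fun r => ?_
            have h4 := AlgHom.congr_fun h1 (AdjoinRoot.of g r)
            rw [AlgHom.comp_apply, AlgHom.comp_apply, hi'] at h4
            exact h4
          · exact h2
        intro x
        have h4 := AlgHom.congr_fun h3 x
        rw [AlgHom.comp_apply, AlgHom.comp_apply, hl] at h4
        exact h4
      · have h4 := AlgHom.congr_fun h1 (AdjoinRoot.root g)
        rw [AlgHom.comp_apply, AlgHom.comp_apply, hi''] at h4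
        exact h4
  exact h1.equiv (isTK_tensor K _ C)

end Cop

/-- products with a fixed algebra -/
theorem geo_left {M N : ∀ (W : Type) [CommRing W], Prop} {K : Type} [Field K]
    (hz : ∀ (R : Type) [CommRing R] [Algebra K R], Subsingleton R → Geometric N K R)
    {C : Type} [CommRing C] [Algebra K C] (hC : Algebra.FiniteType K C)
    (h0 : ∀ (W : Type) [CommRing W], M W → Geometric N K ((K ⊗[ℤ] W) ⊗[K] C))
    {R : Type} [CommRing R] [Algebra K R] (hR : Geometric M K R) :
    Geometric N K (R ⊗[K] C) := by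
  have hft : ∀ (R : Type) [CommRing R] [Algebra K R], Algebra.FiniteType K R →
      Algebra.FiniteType K (R ⊗[K] C) := fun R _ _ hR =>
    Algebra.FiniteType.trans (S := R) hR inferInstance
  induction hR with
  | const W hW => exact h0 W hW
  | iso R T e h ih =>
    exact .iso _ _ (Algebra.TensorProduct.congr e AlgEquiv.refl) ih
  | poly R h ih =>
    obtain ⟨e⟩ := (isTK_tensor K R C).poly
    exact .iso _ _ e (.poly _ ih)
  | glue R f h h1 h2 ih1 ih2 =>
    obtain ⟨e1⟩ := (isTK_tensor K R C).quot f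
    obtain ⟨e2⟩ := (isTK_tensor K R C).away f
    exact .glue _ _ (hft R h) (.iso _ _ e1.symm ih1) (.iso _ _ e2.symm ih2)
  | closed R f h1 h2 ih1 ih2 =>
    obtain ⟨e1⟩ := (isTK_tensor K R C).quot f
    obtain ⟨e2⟩ := (isTK_tensor K R C).away f
    exact .iso _ _ e1 (.closed _ _ ih1 (.iso _ _ e2.symm ih2))
  | opn R f h1 h2 ih1 ih2 =>
    obtain ⟨e1⟩ := (isTK_tensor K R C).quot f
    obtain ⟨e2⟩ := (isTK_tensor K R C).away f
    exact .iso _ _ e2 (.opn _ _ ih1 (.iso _ _ e1.symm ih2))
  | summand R f hf h ih =>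
    obtain ⟨e1⟩ := (isTK_tensor K R C).quot f
    exact .iso _ _ e1 (.summand _ _ (by rw [← map_mul, hf]) ih)
  | transfer R g h hg hd h1 ih =>
    obtain ⟨e1⟩ := (isTK_tensor K R C).root g
    rcases subsingleton_or_nontrivial (R ⊗[K] C) with hs | hs
    · exact hz _ hs
    · exact .transfer _ _ (hft R h) (hg.map _) (by rw [hg.natDegree_map]; exact hd)
        (.iso _ _ e1.symm ih)

theorem kt_ex {K W : Type} [CommRing K] [CommRing W] {E : Type} [CommRing E] [Algebra K E]
    (g : W →+* E) : ∃ v : K ⊗[ℤ] W →ₐ[K] E, ∀ w, v ((1 : K) ⊗ₜ[ℤ] w) = g w := by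
  refine ⟨Algebra.TensorProduct.lift (Algebra.ofId K E) g.toIntAlgHom (fun _ _ => Commute.all _ _),
    fun w => ?_⟩
  rw [Algebra.TensorProduct.lift_tmul, map_one, one_mul]
  rfl

theorem kt_ext {K W : Type} [CommRing K] [CommRing W] {E : Type} [CommRing E] [Algebra K E]
    {u v : K ⊗[ℤ] W →ₐ[K] E} (h : ∀ w, u ((1 : K) ⊗ₜ[ℤ] w) = v ((1 : K) ⊗ₜ[ℤ] w)) : u = v := by
  refine AlgHom.ext fun z => ?_
  induction z using TensorProduct.induction_on with
  | zero => rw [map_zero, map_zero]
  | tmul a w =>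
    have h1 : a ⊗ₜ[ℤ] w = a • ((1 : K) ⊗ₜ[ℤ] w) := by
      rw [TensorProduct.smul_tmul', smul_eq_mul, mul_one]
    rw [h1, map_smul, map_smul, h]
  | add x y hx hy => rw [map_add, map_add, hx, hy]

/-- products of constant algebras -/
theorem const_const (K W W' : Type) [CommRing K] [CommRing W] [CommRing W'] :
    Nonempty ((K ⊗[ℤ] Ten W W') ≃ₐ[K] ((K ⊗[ℤ] W) ⊗[K] (K ⊗[ℤ] W'))) := by
  let l : Ten W W' →+* K ⊗[ℤ] Ten W W' := tinr K (Ten W W')
  obtain ⟨i, hi⟩ := kt_ex (K := K) (l.comp (tinl W W'))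
  obtain ⟨j, hj⟩ := kt_ex (K := K) (l.comp (tinr W W'))
  have h1 : IsTK i j := by
    refine ⟨?_, ?_⟩
    · intro E _ _ f g
      obtain ⟨u, hu1, hu2⟩ := (isTen W W').ex E ((f : K ⊗[ℤ] W →+* E).comp (tinr K W))
        ((g : K ⊗[ℤ] W' →+* E).comp (tinr K W'))
      obtain ⟨v, hv⟩ := kt_ex (K := K) u
      refine ⟨v, kt_ext fun w => ?_, kt_ext fun w => ?_⟩
      · rw [AlgHom.comp_apply, hi]
        exact (hv _).trans (RingHom.congr_fun hu1 w)
      · rw [AlgHom.comp_apply, hj]
        exact (hv _).trans (RingHom.congr_fun hu2 w)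
    · intro E _ _ u v h1 h2
      apply kt_ext
      have h3 : (u : K ⊗[ℤ] Ten W W' →+* E).comp l = (v : K ⊗[ℤ] Ten W W' →+* E).comp l := by
        apply (isTen W W').uniq
        · refine RingHom.ext fun w => ?_
          have h4 := AlgHom.congr_fun h1 ((1 : K) ⊗ₜ[ℤ] w)
          rw [AlgHom.comp_apply, AlgHom.comp_apply, hi] at h4
          exact h4
        · refine RingHom.ext fun w => ?_
          have h4 := AlgHom.congr_fun h2 ((1 : K) ⊗ₜ[ℤ] w)
          rw [AlgHom.comp_apply, AlgHom.comp_apply, hj] at h4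
          exact h4
      exact fun w => RingHom.congr_fun h3 w
  exact h1.equiv (isTK_tensor K _ _)

variable {S : ∀ (A : Type) [CommRing A], Prop}

theorem geo_tensor (hS : SOps S) {K : Type} [Field K] {E B : Type} [CommRing E] [Algebra K E]
    [CommRing B] [Algebra K B] (hE : Geometric (fun W _ => S W) K E)
    (hB : Geometric (fun W _ => MultS S W) K B) :
    Geometric (fun W _ => S W) K (E ⊗[K] B) := by
  have hz := (geometric_kops hS K).zero
  have hEft : Algebra.FiniteType K E := hE.finiteType (fun W _ h => hS.ft W h)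
  refine .iso _ _ (Algebra.TensorProduct.comm K B E) (geo_left hz hEft (fun W' _ hW' => ?_) hB)
  refine .iso _ _ (Algebra.TensorProduct.comm K E (K ⊗[ℤ] W')) (geo_left hz ?_ (fun W _ hW => ?_) hE)
  · have := hW'.1
    infer_instance
  · obtain ⟨e⟩ := const_const K W W'
    exact .iso _ _ e (.const (Ten W W') (hW'.2 W hW))

/-- the fibres of a product -/
theorem fibre_prod {R A W K : Type} [CommRing R] [CommRing A] [CommRing W] [CommRing K]
    [Algebra R A] [Algebra R K] :
    let _ : Algebra R (Ten W A) := ((tinr W A).comp (algebraMap R A)).toAlgebra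
    Nonempty ((K ⊗[R] Ten W A) ≃ₐ[K] ((K ⊗[ℤ] W) ⊗[K] (K ⊗[R] A))) := by
  let _ : Algebra R (Ten W A) := ((tinr W A).comp (algebraMap R A)).toAlgebra
  -- homomorphisms from a base change
  have bc_ex : ∀ (B : Type) [CommRing B] [Algebra R B] (E : Type) [CommRing E] [Algebra K E]
      (g : B →+* E), (∀ r, g (algebraMap R B r) = algebraMap K E (algebraMap R K r)) →
      ∃ v : K ⊗[R] B →ₐ[K] E, ∀ w, v ((1 : K) ⊗ₜ[R] w) = g w := by
    intro B _ _ E _ _ g hg
    let _ : Algebra R E := ((algebraMap K E).comp (algebraMap R K)).toAlgebra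
    have : IsScalarTower R K E := IsScalarTower.of_algebraMap_eq (fun _ => rfl)
    let g' : B →ₐ[R] E := { toRingHom := g, commutes' := hg }
    refine ⟨Algebra.TensorProduct.lift (Algebra.ofId K E) g' (fun _ _ => Commute.all _ _),
      fun w => ?_⟩
    rw [Algebra.TensorProduct.lift_tmul, map_one, one_mul]
    rfl
  have bc_ext : ∀ (B : Type) [CommRing B] [Algebra R B] (E : Type) [CommRing E] [Algebra K E]
      (u v : K ⊗[R] B →ₐ[K] E), (∀ w, u ((1 : K) ⊗ₜ[R] w) = v ((1 : K) ⊗ₜ[R] w)) → u = v := by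
    intro B _ _ E _ _ u v h
    refine AlgHom.ext fun z => ?_
    induction z using TensorProduct.induction_on with
    | zero => rw [map_zero, map_zero]
    | tmul a w =>
      have h1 : a ⊗ₜ[R] w = a • ((1 : K) ⊗ₜ[R] w) := by
        rw [TensorProduct.smul_tmul', smul_eq_mul, mul_one]
      rw [h1, map_smul, map_smul, h]
    | add x y hx hy => rw [map_add, map_add, hx, hy]
  have key : ∀ (B : Type) [CommRing B] [Algebra R B] (r : R),
      (1 : K) ⊗ₜ[R] (algebraMap R B r) = algebraMap K (K ⊗[R] B) (algebraMap R K r) := by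
    intro B _ _ r
    rw [Algebra.algebraMap_eq_smul_one (A := B), ← TensorProduct.smul_tmul,
      ← Algebra.algebraMap_eq_smul_one]
    rfl
  let l : Ten W A →+* K ⊗[R] Ten W A :=
    ((Algebra.TensorProduct.includeRight : Ten W A →ₐ[R] K ⊗[R] Ten W A) : Ten W A →+* _)
  obtain ⟨i, hi⟩ := kt_ex (K := K) (l.comp (tinl W A))
  obtain ⟨j, hj⟩ := bc_ex A (K ⊗[R] Ten W A) (l.comp (tinr W A)) (fun r => key (Ten W A) r)
  have h1 : IsTK i j := by
    refine ⟨?_, ?_⟩
    · intro E _ _ f g
      obtain ⟨u, hu1, hu2⟩ := (isTen W A).ex E ((f : K ⊗[ℤ] W →+* E).comp (tinr K W))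
        ((g : K ⊗[R] A →+* E).comp
          ((Algebra.TensorProduct.includeRight : A →ₐ[R] K ⊗[R] A) : A →+* _))
      obtain ⟨v, hv⟩ := bc_ex (Ten W A) E u (fun r => by
        have h2 : u (tinr W A (algebraMap R A r)) = g ((1 : K) ⊗ₜ[R] (algebraMap R A r)) :=
          RingHom.congr_fun hu2 _
        rw [key A, g.commutes] at h2
        exact h2)
      refine ⟨v, kt_ext fun w => ?_, bc_ext _ _ _ _ fun w => ?_⟩
      · rw [AlgHom.comp_apply, hi]
        exact (hv _).trans (RingHom.congr_fun hu1 w)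
      · rw [AlgHom.comp_apply, hj]
        exact (hv _).trans (RingHom.congr_fun hu2 w)
    · intro E _ _ u v h1 h2
      apply bc_ext
      have h3 : (u : K ⊗[R] Ten W A →+* E).comp l = (v : K ⊗[R] Ten W A →+* E).comp l := by
        apply (isTen W A).uniq
        · refine RingHom.ext fun w => ?_
          have h4 := AlgHom.congr_fun h1 ((1 : K) ⊗ₜ[ℤ] w)
          rw [AlgHom.comp_apply, AlgHom.comp_apply, hi] at h4
          exact h4
        · refine RingHom.ext fun w => ?_
          have h4 := AlgHom.congr_fun h2 ((1 : K) ⊗ₜ[R] w)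
          rw [AlgHom.comp_apply, AlgHom.comp_apply, hj] at h4
          exact h4
      exact fun w => RingHom.congr_fun h3 w
  exact h1.equiv (isTK_tensor K _ _)

theorem fibres_mult (hS : SOps S) {R A : Type} [CommRing R] [CommRing A] [Algebra R A]
    (hR : Algebra.FiniteType ℤ R) (hA : Algebra.FiniteType R A)
    (h1 : ∀ (p : Ideal R) [p.IsPrime], ringKrullDim (R ⧸ p) ≤ 1 →
      Geometric (fun W _ => MultS S W) (AlgebraicClosure p.ResidueField)
        (AlgebraicClosure p.ResidueField ⊗[R] A))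
    (h2 : ∀ (p : Ideal R) [p.IsPrime], 1 < ringKrullDim (R ⧸ p) →
      (∀ a : R ⧸ p, a ≠ 0 → MultS S (Localization.Away a)) ∧
      Geometric (fun W _ => MultS S W) p.ResidueField (p.ResidueField ⊗[R] A)) : MultS S A := by
  have hAft : Algebra.FiniteType ℤ A := ft_alg hR hA
  refine ⟨hAft, fun W _ hW => ?_⟩
  let _ : Algebra R (Ten W A) := ((tinr W A).comp (algebraMap R A)).toAlgebra
  have hTft : Algebra.FiniteType ℤ (Ten W A) := ft_ten (hS.ft W hW) hAft
  have hT : Algebra.FiniteType R (Ten W A) :=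
    Algebra.FiniteType.of_restrictScalars_finiteType ℤ R (Ten W A)
  have key : ∀ (K : Type) [Field K] [Algebra R K],
      Geometric (fun W _ => MultS S W) K (K ⊗[R] A) →
      Geometric (fun W _ => S W) K (K ⊗[R] Ten W A) := by
    intro K _ _ h
    obtain ⟨e⟩ := fibre_prod (R := R) (A := A) (W := W) (K := K)
    exact .iso _ _ e.symm (geo_tensor hS (.const W hW) h)
  refine fibres2 hS hR hT fun p _ => ?_
  by_cases hd : ringKrullDim (R ⧸ p) ≤ 1
  · exact Or.inl ⟨hd, key _ (h1 p hd)⟩
  · obtain ⟨h3, h4⟩ := h2 p (not_le.1 hd)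
    exact Or.inr ⟨h3, key _ h4⟩

end Pool.Agent.Helper20.BL
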