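import Pool.Agent.Helper20.BL.Bil
import Pool.Agent.Helper87.CC.LowDeg
import Pool.Agent.Helper65.CC.Linear

/-!
# Bilinear systems over bases of small dimension
-/

namespace Pool.Agent.Helper20.BL

open TensorProduct MvPolynomial
open Pool.Agent.Helper65.Mor (Fn)
open Pool.Agent.Helper87.CC

variable {S : ∀ (A : Type) [CommRing A], Prop}

/-- polynomials of degree at most one in the first and in the second group of unknowns -/
def IsBilin {R : Type} [CommRing R] {m n : ℕ} (f : MvPolynomial (Fin m ⊕ Fin n) R) : Prop :=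
  ∀ d ∈ f.support, ∑ i, d (Sum.inl i) ≤ 1 ∧ ∑ j, d (Sum.inr j) ≤ 1

section

variable {R : Type} [CommRing R] {m n : ℕ}

theorem lpo_add (l l' : Lf R n) : lpo m (l + l') = lpo m l + lpo m l' := by
  simp only [lpo, Pi.add_apply, map_add, add_mul, Finset.sum_add_distrib]
  ring

theorem bpo_add (e e' : Bf R m n) : bpo (e + e') = bpo e + bpo e' := by
  simp only [bpo, Prod.fst_add, Prod.snd_add, Pi.add_apply, lpo_add, add_mul,
    Finset.sum_add_distrib]
  ring

theorem lpo_zero : lpo m (0 : Lf R n) = 0 := by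
  simp [lpo]

theorem lpo_none (r : R) : lpo m (Pi.single none r : Lf R n) = C r := by
  simp [lpo]

theorem lpo_some (r : R) (j : Fin n) :
    lpo m (Pi.single (some j) r : Lf R n) = C r * X (Sum.inr j) := by
  simp only [lpo]
  rw [Pi.single_eq_of_ne (by simp), map_zero, zero_add, Finset.sum_eq_single j]
  · rw [Pi.single_eq_same]
  · intro b _ hb
    rw [Pi.single_eq_of_ne (by simpa using hb), map_zero, zero_mul]
  · intro h
    exact absurd (Finset.mem_univ j) h

theorem bpo_snd (l : Lf R n) : bpo ((0, l) : Bf R m n) = lpo m l := by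
  simp [bpo, lpo_zero]

theorem bpo_fst (l : Lf R n) (i : Fin m) :
    bpo ((Pi.single i l, 0) : Bf R m n) = lpo m l * X (Sum.inl i) := by
  simp only [bpo]
  rw [lpo_zero, add_zero, Finset.sum_eq_single i]
  · rw [Pi.single_eq_same]
  · intro b _ hb
    rw [Pi.single_eq_of_ne hb, lpo_zero, zero_mul]
  · intro h
    exact absurd (Finset.mem_univ i) h

/-- exponents of total degree at most one -/
theorem sum_le_one {k : ℕ} (d : Fin k → ℕ) (h : ∑ i, d i ≤ 1) :
    (∀ i, d i = 0) ∨ ∃ i, d i = 1 ∧ ∀ j, j ≠ i → d j = 0 := by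
  classical
  by_cases h0 : ∀ i, d i = 0
  · exact Or.inl h0
  · push Not at h0
    obtain ⟨i, hi⟩ := h0
    right
    have h1 := Finset.add_sum_erase Finset.univ d (Finset.mem_univ i)
    refine ⟨i, by omega, fun j hj => ?_⟩
    have h2 : d j ≤ ∑ x ∈ Finset.univ.erase i, d x :=
      Finset.single_le_sum (f := d) (fun _ _ => Nat.zero_le _)
        (Finset.mem_erase.2 ⟨hj, Finset.mem_univ j⟩)
    omega

theorem exists_bpo (f : MvPolynomial (Fin m ⊕ Fin n) R) (hf : IsBilin f) :
    ∃ e : Bf R m n, f = bpo e := by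
  classical
  have hmono : ∀ (d : (Fin m ⊕ Fin n) →₀ ℕ) (r : R), ∑ i, d (Sum.inl i) ≤ 1 →
      ∑ j, d (Sum.inr j) ≤ 1 → ∃ e : Bf R m n, monomial d r = bpo e := by
    intro d r h1 h2
    rcases sum_le_one (fun i => d (Sum.inl i)) h1 with h3 | ⟨i, h3, h4⟩
    · rcases sum_le_one (fun j => d (Sum.inr j)) h2 with h5 | ⟨j, h5, h6⟩
      · have hd : d = 0 := by
          ext s
          rcases s with s | s
          · exact h3 s
          · exact h5 s
        subst hd
        exact ⟨(0, Pi.single none r), by rw [bpo_snd, lpo_none]; rfl⟩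
      · have hd : d = Finsupp.single (Sum.inr j) 1 := by
          ext s
          rcases s with s | s
          · rw [Finsupp.single_eq_of_ne (by simp)]
            exact h3 s
          · by_cases hs : s = j
            · subst hs
              rw [Finsupp.single_eq_same]
              exact h5
            · rw [Finsupp.single_eq_of_ne (by simpa using hs)]
              exact h6 s hs
        subst hd
        refine ⟨(0, Pi.single (some j) r), ?_⟩
        rw [bpo_snd, lpo_some, X, C_mul_monomial, mul_one]
    · rcases sum_le_one (fun j => d (Sum.inr j)) h2 with h5 | ⟨j, h5, h6⟩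
      · have hd : d = Finsupp.single (Sum.inl i) 1 := by
          ext s
          rcases s with s | s
          · by_cases hs : s = i
            · subst hs
              rw [Finsupp.single_eq_same]
              exact h3
            · rw [Finsupp.single_eq_of_ne (by simpa using hs)]
              exact h4 s hs
          · rw [Finsupp.single_eq_of_ne (by simp)]
            exact h5 s
        subst hd
        refine ⟨(Pi.single i (Pi.single none r), 0), ?_⟩
        rw [bpo_fst, lpo_none, X, C_mul_monomial, mul_one]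
      · have hd : d = Finsupp.single (Sum.inr j) 1 + Finsupp.single (Sum.inl i) 1 := by
          ext s
          rcases s with s | s
          · rw [Finsupp.add_apply, Finsupp.single_eq_of_ne (by simp), zero_add]
            by_cases hs : s = i
            · subst hs
              rw [Finsupp.single_eq_same]
              exact h3
            · rw [Finsupp.single_eq_of_ne (by simpa using hs)]
              exact h4 s hs
          · rw [Finsupp.add_apply, Finsupp.single_eq_of_ne (a := Sum.inl i) (by simp), add_zero]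
            by_cases hs : s = j
            · subst hs
              rw [Finsupp.single_eq_same]
              exact h5
            · rw [Finsupp.single_eq_of_ne (by simpa using hs)]
              exact h6 s hs
        subst hd
        refine ⟨(Pi.single i (Pi.single (some j) r), 0), ?_⟩
        rw [bpo_fst, lpo_some, X, X, C_mul_monomial, mul_one, monomial_mul, mul_one]
  have h1 : ∀ s : Finset ((Fin m ⊕ Fin n) →₀ ℕ), s ⊆ f.support →
      ∃ e : Bf R m n, ∑ d ∈ s, monomial d (coeff d f) = bpo e := by
    intro s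
    induction s using Finset.induction_on with
    | empty => exact fun _ => ⟨0, by simp [bpo, lpo_zero]⟩
    | insert a s ha ih =>
      intro hs
      obtain ⟨e, h⟩ := ih (fun x hx => hs (Finset.mem_insert_of_mem hx))
      have h2 := hf a (hs (Finset.mem_insert_self _ _))
      obtain ⟨e', h'⟩ := hmono a (coeff a f) h2.1 h2.2
      exact ⟨e' + e, by rw [Finset.sum_insert ha, h, h', bpo_add]⟩
  obtain ⟨e, h⟩ := h1 f.support (fun _ h => h)
  exact ⟨e, by rw [← h]; exact f.as_sum⟩

end

section

variable {R W : Type} [CommRing R] [CommRing W] {m n : ℕ}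

/-- systems without unknowns of the first kind -/
theorem rp_sys0 (T : Set (MvPolynomial (Fin n) R)) :
    ∃ a, Rp (Sp R W 0 n) (fun _ _ p => ∀ q ∈ T, MvPolynomial.eval₂ p.1 p.2.2.2 q = 0)
      (Ten W (MvPolynomial (Fin n) R ⧸ Ideal.span T)) a := by
  have h := isFam_ten W T
  refine ⟨(((tinr W (MvPolynomial (Fin n) R ⧸ Ideal.span T)).comp
      (Ideal.Quotient.mk _)).comp MvPolynomial.C,
    tinl W (MvPolynomial (Fin n) R ⧸ Ideal.span T), Fin.elim0, fun j =>
    tinr W (MvPolynomial (Fin n) R ⧸ Ideal.span T)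
    (Ideal.Quotient.mk _ (MvPolynomial.X j))), ?_, ?_, ?_⟩
  · intro V _ f q hq
    have h1 := congrArg f (h.zero q hq)
    rw [map_zero, MvPolynomial.hom_eval₂] at h1
    exact h1
  · rintro V _ ⟨f, g, x, y⟩ hx
    obtain ⟨u, hu1, hu2, hu3⟩ := h.ex V f g y hx
    refine ⟨u, ?_⟩
    refine Prod.ext hu1 (Prod.ext hu2 (Prod.ext ?_ ?_))
    · funext k
      exact k.elim0
    · funext j
      exact hu3 j
  · intro V _ f g hfg
    apply h.uniq V f g (congrArg Prod.fst hfg) (congrArg (fun p => p.2.1) hfg)
    intro j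
    exact congrFun (congrArg (fun p => p.2.2.2) hfg) j

/-- the polynomial of a linear form -/
noncomputable def lpo0 (l : Lf R n) : MvPolynomial (Fin n) R :=
  MvPolynomial.C (l none) + ∑ j, MvPolynomial.C (l (some j)) * MvPolynomial.X j

theorem eval_lpo0 {E : Type} [CommRing E] (f : R →+* E) (y : Fin n → E)
    (l : Lf R n) : MvPolynomial.eval₂ f y (lpo0 l) = ev f y l := by
  simp [lpo0, ev, MvPolynomial.eval₂_add, MvPolynomial.eval₂_sum, MvPolynomial.eval₂_mul]

theorem deg_lpo0 (l : Lf R n) : (lpo0 l).totalDegree ≤ 1 := by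
  rw [lpo0]
  refine (totalDegree_add _ _).trans (max_le ?_ ?_)
  · rw [totalDegree_C]
    exact zero_le_one
  · apply totalDegree_finsetSum_le
    intro i _
    refine (totalDegree_mul _ _).trans ?_
    rw [totalDegree_C, zero_add]
    rcases subsingleton_or_nontrivial R with h | h
    · have h1 : (X i : MvPolynomial (Fin n) R) = 0 := Subsingleton.elim _ _
      rw [h1, totalDegree_zero]
      exact zero_le_one
    · exact (totalDegree_X i).le

/-- linear systems over bases of dimension at most two -/
theorem linOK (hS : SOps S) (hR : Algebra.FiniteType ℤ R)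
    (hM : ∀ (p : Ideal R) [p.IsPrime], MultS S (R ⧸ p)) (hdim : ringKrullDim R ≤ 2)
    (hW : S W) : LinOK S R W := by
  classical
  intro m n Λ
  have h1 : Gd S (Sp R W 0 n) (P0 Λ) := by
    have h2 := low_degree hS hR (fun p _ _ => hM p) n (Λ.image lpo0) ∅
      (by
        intro l hl
        obtain ⟨l', -, rfl⟩ := Finset.mem_image.1 hl
        exact deg_lpo0 l') (by simp) (by
          rw [Finset.card_empty, Nat.cast_zero, add_zero]
          exact hdim) hW
    obtain ⟨a, ha⟩ := rp_sys0 (W := W) (((Λ.image lpo0 : Finset (MvPolynomial (Fin n) R)) :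
      Set (MvPolynomial (Fin n) R)) ∪
      ((∅ : Finset (MvPolynomial (Fin n) R)) : Set (MvPolynomial (Fin n) R)))
    refine ⟨_, _, a, ha.congr ?_, h2⟩
    intro V _ p
    simp only [Finset.coe_empty, Set.union_empty, Finset.mem_coe, Finset.forall_mem_image,
      eval_lpo0, P0]
  induction m with
  | zero => exact h1.congr (fun V _ p => by simp [Ps, P0])
  | succ m ih => exact (gd_free hS ih).congr (fun V _ p => by simp [Ps])

end

section Mult

theorem MultS.poly (hS : SOps S) {A : Type} [CommRing A] (h : MultS S A) :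
    MultS S (Polynomial A) := by
  refine ⟨Algebra.FiniteType.trans (S := A) h.1 inferInstance, fun W _ hW => ?_⟩
  obtain ⟨e⟩ := ten_poly W A
  exact hS.iso _ _ e (hS.poly _ (h.2 W hW))

theorem MultS.mvPoly (hS : SOps S) {A : Type} [CommRing A] (h : MultS S A) (σ : Type) [Finite σ] :
    MultS S (MvPolynomial σ A) := by
  induction σ using Finite.induction_empty_option with
  | of_equiv e h1 => exact h1.iso hS (MvPolynomial.renameEquiv A e).toRingEquiv
  | h_empty => exact h.iso hS (MvPolynomial.isEmptyAlgEquiv A PEmpty).symm.toRingEquiv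
  | h_option h1 =>
    exact (MultS.poly hS h1).iso hS (MvPolynomial.optionEquivLeft A _).symm.toRingEquiv

/-- domains of dimension at most one -/
theorem MultS.of_dim (hS : SOps S) {A : Type} [CommRing A] (hA : Algebra.FiniteType ℤ A)
    (h : ringKrullDim A ≤ 1) : MultS S A := MultS.curve hS (CurveProd.of_dim hA h)

/-- the affine line over a base of dimension at most one -/
theorem mult_line (hS : SOps S) {R : Type} [CommRing R] (hR : Algebra.FiniteType ℤ R)
    (hdim : ringKrullDim R ≤ 1) (p : Ideal (Polynomial R)) [p.IsPrime] :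
    MultS S (Polynomial R ⧸ p) := by
  have hRX : Algebra.FiniteType ℤ (Polynomial R) :=
    Algebra.FiniteType.trans (S := R) hR inferInstance
  have hft : Algebra.FiniteType ℤ (Polynomial R ⧸ p) :=
    ft_of_surj hRX (Ideal.Quotient.mk p) Ideal.Quotient.mk_surjective
  have hRn : IsNoetherianRing R := Algebra.FiniteType.isNoetherianRing ℤ R
  set q : Ideal R := p.comap Polynomial.C with hq
  have hqp : q.IsPrime := Ideal.comap_isPrime _ _
  have hqd : ringKrullDim (R ⧸ q) ≤ 1 := (ringKrullDim_quotient_le q).trans hdim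
  have hle : q.map Polynomial.C ≤ p := Ideal.map_comap_le
  let e : (Polynomial R ⧸ q.map Polynomial.C) ≃+* Polynomial (R ⧸ q) :=
    (Ideal.polynomialQuotientEquivQuotientPolynomial q).symm
  by_cases h : p = q.map Polynomial.C
  · have h1 : MultS S (Polynomial (R ⧸ q)) :=
      MultS.poly hS (MultS.of_dim hS (ft_of_surj hR (Ideal.Quotient.mk q)
        Ideal.Quotient.mk_surjective) hqd)
    exact h1.iso hS (e.symm.trans (Ideal.quotEquivOfEq h.symm))
  · apply MultS.of_dim hS hft
    have h1 : ∃ a ∈ p, a ∉ q.map Polynomial.C := by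
      by_contra hcon
      push Not at hcon
      exact h (le_antisymm hcon hle)
    obtain ⟨a, hap, haq⟩ := h1
    set b : Polynomial R ⧸ q.map Polynomial.C := Ideal.Quotient.mk _ a with hb
    have hb0 : e b ≠ 0 := by
      intro h0
      apply haq
      have h2 : b = 0 := by rwa [map_eq_zero_iff e e.injective] at h0
      exact Ideal.Quotient.eq_zero_iff_mem.1 h2
    have h3 := ringKrullDim_quotient_succ_le_of_nonZeroDivisor (mem_nonZeroDivisors_of_ne_zero hb0)
    have h4 : ringKrullDim (Polynomial (R ⧸ q)) ≤ 2 := by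
      rw [Polynomial.ringKrullDim_of_isNoetherianRing]
      calc ringKrullDim (R ⧸ q) + 1 ≤ 1 + 1 := by gcongr
        _ = 2 := by norm_num
    have h5 := dim_le_one (h3.trans h4)
    -- the quotient of `R[X]` by `p` is a quotient
    let φ : Polynomial (R ⧸ q) →+* (Polynomial R ⧸ p) :=
      (Ideal.Quotient.factor hle).comp (e.symm : Polynomial (R ⧸ q) →+* _)
    have hφ : Function.Surjective φ :=
      (Ideal.Quotient.factor_surjective hle).comp e.symm.surjective
    have hφ0 : ∀ c ∈ Ideal.span {e b}, φ c = 0 := by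
      have h6 : Ideal.span {e b} ≤ RingHom.ker φ := by
        rw [Ideal.span_singleton_le_iff_mem, RingHom.mem_ker]
        change Ideal.Quotient.factor hle (e.symm (e b)) = 0
        rw [e.symm_apply_apply, hb, Ideal.Quotient.factor_mk]
        exact Ideal.Quotient.eq_zero_iff_mem.2 hap
      exact fun c hc => h6 hc
    refine (ringKrullDim_le_of_surjective (Ideal.Quotient.lift _ φ hφ0) ?_).trans h5
    exact Ideal.Quotient.lift_surjective_of_surjective _ _ hφ

end Mult

/-- sums of dimensions -/
theorem dim_sub {x : WithBot ℕ∞} {a c : ℕ} (b : ℕ) (hb : b + a = c)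
    (h : x + (a : WithBot ℕ∞) ≤ (c : WithBot ℕ∞)) : x ≤ (b : WithBot ℕ∞) := by
  induction x with
  | bot => exact bot_le
  | coe x =>
    have h1 : ((x + (a : ℕ∞) : ℕ∞) : WithBot ℕ∞) ≤ ((c : ℕ∞) : WithBot ℕ∞) := by
      refine le_trans (le_of_eq ?_) (h.trans (le_of_eq ?_))
      · rw [WithBot.coe_add]
        rfl
      · rfl
    have h2 : x + (a : ℕ∞) ≤ c := WithBot.coe_le_coe.1 h1
    have h6 : x ≠ ⊤ := by
      rintro rfl
      rw [top_add, top_le_iff] at h2
      exact absurd h2 (ENat.natCast_ne_top c)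
    obtain ⟨k, rfl⟩ := ENat.ne_top_iff_exists.1 h6
    have h3 : k + a ≤ c := by exact_mod_cast h2
    have h4 : k ≤ b := by omega
    exact_mod_cast h4

/-- reduction to the quotients by prime ideals -/
theorem of_primes (hS : SOps S) {R : Type} [CommRing R] (hR : Algebra.FiniteType ℤ R) {σ : Type}
    [Finite σ] (T : Set (MvPolynomial σ R)) {W : Type} [CommRing W] (hW : S W)
    (h : ∀ (p : Ideal R) [p.IsPrime], S (Ten W (MvPolynomial σ (R ⧸ p) ⧸
      Ideal.span (map (algebraMap R (R ⧸ p)) '' T)))) :
    S (Ten W (MvPolynomial σ R ⧸ Ideal.span T)) := by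
  let A := Ten W (MvPolynomial σ R ⧸ Ideal.span T)
  let _ : Algebra R A := (((tinr W (MvPolynomial σ R ⧸ Ideal.span T)).comp
    (Ideal.Quotient.mk _)).comp C).toAlgebra
  have hfam : IsFam T (algebraMap R A) (tinl W (MvPolynomial σ R ⧸ Ideal.span T))
      (fun a => tinr W (MvPolynomial σ R ⧸ Ideal.span T) (Ideal.Quotient.mk _ (X a))) :=
    isFam_ten W T
  have hAft : Algebra.FiniteType ℤ A := ft_ten (hS.ft W hW) (ft_alg hR inferInstance)
  have hA : Algebra.FiniteType R A := Algebra.FiniteType.of_restrictScalars_finiteType ℤ R A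
  refine devissage hS hR hA fun p _ => ⟨1, one_ne_zero, ?_⟩
  obtain ⟨e⟩ := fam_baseChange W T hfam (R ⧸ p)
  have h5 : S ((R ⧸ p) ⊗[R] A) := hS.iso _ _ e (h p)
  have e1 : (R ⧸ p) ≃ₐ[R] Localization.Away (1 : R ⧸ p) :=
    (IsLocalization.atOne (R ⧸ p) (Localization.Away (1 : R ⧸ p))).restrictScalars R
  exact hS.iso _ _ (Algebra.TensorProduct.congr e1 AlgEquiv.refl).toRingEquiv h5

theorem quot_bot {A : Type} [CommRing A] (I : Ideal A) (h : I = ⊥) : Nonempty (A ≃+* A ⧸ I) := by
  subst h
  exact ⟨(RingEquiv.quotientBot A).symm⟩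

/-- **Bilinear systems.** -/
theorem bilinear (hS : SOps S) {R : Type} [CommRing R] (hR : Algebra.FiniteType ℤ R)
    (hM : ∀ (p : Ideal R) [p.IsPrime], MultS S (R ⧸ p)) (m n : ℕ)
    (F : Finset (MvPolynomial (Fin m ⊕ Fin n) R)) (hF : ∀ f ∈ F, IsBilin f)
    (hcard : F.card ≤ 2) (hdim : ringKrullDim R + (F.card : WithBot ℕ∞) ≤ 3) :
    MultS S (MvPolynomial (Fin m ⊕ Fin n) R ⧸
      Ideal.span (F : Set (MvPolynomial (Fin m ⊕ Fin n) R))) := by
  classical
  refine ⟨ft_alg hR inferInstance, fun W _ hW => ?_⟩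
  have hcases : F.card = 0 ∨ F.card = 1 ∨ F.card = 2 := by omega
  rcases hcases with h0 | h1 | h2
  · -- no equations
    have hF0 : F = ∅ := Finset.card_eq_zero.1 h0
    refine of_primes hS hR _ hW fun p _ => ?_
    have h3 := (MultS.mvPoly hS (hM p) (Fin m ⊕ Fin n)).2 W hW
    obtain ⟨e⟩ := quot_bot (A := MvPolynomial (Fin m ⊕ Fin n) (R ⧸ p))
      (Ideal.span (map (algebraMap R (R ⧸ p)) '' (F : Set (MvPolynomial (Fin m ⊕ Fin n) R))))
      (by rw [hF0, Finset.coe_empty, Set.image_empty, Ideal.span_empty])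
    obtain ⟨e'⟩ := ten_congr (RingEquiv.refl W) e
    exact hS.iso _ _ e' h3
  · -- one equation
    obtain ⟨f, hf⟩ := Finset.card_eq_one.1 h1
    obtain ⟨e, he⟩ := exists_bpo f (hF f (by rw [hf]; exact Finset.mem_singleton_self f))
    rw [h1] at hdim
    have hL := linOK hS hR hM (dim_sub 2 rfl hdim) hW
    obtain ⟨a, ha⟩ := rp_sys (W := W) (F : Set (MvPolynomial (Fin m ⊕ Fin n) R))
    refine (bil1 hS hR (hS.ft W hW) hL ∅ e).mem hS (ha.congr ?_)
    intro V _ p
    simp only [hf, Finset.coe_singleton, Set.mem_singleton_iff, forall_eq, P1,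
      Finset.notMem_empty, IsEmpty.forall_iff, implies_true, true_and]
    rw [he, eval_bpo]
  · -- two equations
    obtain ⟨f, g, -, hfg⟩ := Finset.card_eq_two.1 h2
    obtain ⟨e, he⟩ := exists_bpo f (hF f (by rw [hfg]; simp))
    obtain ⟨e', he'⟩ := exists_bpo g (hF g (by rw [hfg]; simp))
    rw [h2] at hdim
    have hd1 : ringKrullDim R ≤ 1 := dim_sub 1 rfl hdim
    have hd2 : ringKrullDim R ≤ 2 := hd1.trans (by norm_num)
    have hRn : IsNoetherianRing R := Algebra.FiniteType.isNoetherianRing ℤ R
    have hL := linOK hS hR hM hd2 hW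
    have hRX : Algebra.FiniteType ℤ (Polynomial R) :=
      Algebra.FiniteType.trans (S := R) hR inferInstance
    have hLX : LinOK S (Polynomial R) W := by
      refine linOK hS hRX (fun p _ => mult_line hS hR hd1 p) ?_ hW
      rw [Polynomial.ringKrullDim_of_isNoetherianRing]
      calc ringKrullDim R + 1 ≤ 1 + 1 := by gcongr
        _ = 2 := by norm_num
    obtain ⟨a, ha⟩ := rp_sys (W := W) (F : Set (MvPolynomial (Fin m ⊕ Fin n) R))
    refine (bil2 hS hR (hS.ft W hW) hL hLX ∅ e e').mem hS (ha.congr ?_)
    intro V _ p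
    simp only [hfg, Finset.coe_insert, Finset.coe_singleton, Set.forall_mem_insert,
      Set.mem_singleton_iff, forall_eq, P2, Finset.notMem_empty, IsEmpty.forall_iff, implies_true,
      true_and]
    rw [he, he', eval_bpo, eval_bpo]

end Pool.Agent.Helper20.BL
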