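import Pool.Agent.Helper20.BL.Sys

/-!
# One and two bilinear equations
-/

namespace Pool.Agent.Helper20.BL

open Pool.Agent.Helper65.Mor
open Pool.Agent.Helper65.Mor.Fn
open Pool.Agent.Helper87.CC

variable {S : ∀ (A : Type) [CommRing A], Prop} {R W : Type} [CommRing R] [CommRing W] {m n : ℕ}

theorem inv_smul {V : Type} [CommRing V] {u : V} (hu : IsUnit u) : Ring.inverse u * u = 1 :=
  Ring.inverse_mul_cancel _ hu

/-- elimination of the first unknown by an equation whose coefficient is invertible -/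
theorem gd_elim {p : Pr (Sp R W m n)} (e : Bf R (m + 1) n)
    (h : Gd S (Sp R W m n) (fun V _ q => p V q ∧ IsUnit ((cev (e.1 0)).val q))) :
    Gd S (Sp R W (m + 1) n) (fun V _ q => (p V (q.1, q.2.1, fun k => q.2.2.1 k.succ, q.2.2.2) ∧
      bv q.1 q.2.2.1 q.2.2.2 e = 0) ∧ IsUnit ((cev (e.1 0)).val q)) := by
  refine h.iso (G := Sp R W (m + 1) n)
    (fun V _ (q : (Sp R W m n).obj V) => (q.1, q.2.1,
      (Fin.cons (-(Ring.inverse (ev q.1 q.2.2.2 (e.1 0)) * bv q.1 q.2.2.1 q.2.2.2 (tl e)))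
        q.2.2.1 : Fin (m + 1) → V), q.2.2.2))
    (fun V _ (q : (Sp R W (m + 1) n).obj V) => (q.1, q.2.1, fun k => q.2.2.1 k.succ, q.2.2.2))
    ?_ ?_ ?_ ?_ ?_
  · rintro V _ q ⟨h1, h2⟩
    refine ⟨⟨h1, ?_⟩, h2⟩
    have h3 : IsUnit (ev q.1 q.2.2.2 (e.1 0)) := h2
    have h4 := inv_smul h3
    change bv q.1 (Fin.cons _ q.2.2.1 : Fin (m + 1) → V) q.2.2.2 e = 0
    rw [bv_cons]
    linear_combination (-bv q.1 q.2.2.1 q.2.2.2 (tl e)) * h4
  · rintro V _ q ⟨⟨h1, -⟩, h2⟩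
    exact ⟨h1, h2⟩
  · rintro V _ q -
    rfl
  · rintro V _ q ⟨⟨h1, h2⟩, h3⟩
    refine Prod.ext rfl (Prod.ext rfl (Prod.ext ?_ rfl))
    have h3 : IsUnit (ev q.1 q.2.2.2 (e.1 0)) := h3
    have h4 := inv_smul h3
    rw [bv_tail] at h2
    funext k
    refine Fin.cases ?_ (fun _ => rfl) k
    change -(Ring.inverse (ev q.1 q.2.2.2 (e.1 0)) *
      bv q.1 (fun k => q.2.2.1 k.succ) q.2.2.2 (tl e)) = q.2.2.1 0
    linear_combination (-Ring.inverse (ev q.1 q.2.2.2 (e.1 0))) * h2 + q.2.2.1 0 * h4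
  · rintro V V' _ _ f q ⟨-, h3⟩
    refine Prod.ext rfl (Prod.ext rfl (Prod.ext ?_ rfl))
    have h3 : IsUnit (ev q.1 q.2.2.2 (e.1 0)) := h3
    funext k
    refine Fin.cases ?_ (fun _ => rfl) k
    change f (-(Ring.inverse (ev q.1 q.2.2.2 (e.1 0)) * bv q.1 q.2.2.1 q.2.2.2 (tl e))) =
      -(Ring.inverse (ev (f.comp q.1) (fun j => f (q.2.2.2 j)) (e.1 0)) *
        bv (f.comp q.1) (fun k => f (q.2.2.1 k)) (fun j => f (q.2.2.2 j)) (tl e))
    rw [map_neg, map_mul, map_inv_unit f h3, ev_nat, bv_nat]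

/-- a quotient of two forms as a new coordinate of the base -/
theorem gd_lam {p : Pr (Sp R W m n)} {P : Pr (Sp (Polynomial R) W m n)} (u v : Lf R n)
    (h : Gd S (Sp (Polynomial R) W m n) (fun V _ q =>
      (P V q ∧ ev q.1 q.2.2.2 (pen v u) = 0) ∧ IsUnit ((cev (ext u)).val q)))
    (hp : ∀ (V : Type) [CommRing V] (q : (Sp (Polynomial R) W m n).obj V),
      ev q.1 q.2.2.2 (pen v u) = 0 → IsUnit (ev q.1 q.2.2.2 (ext u)) →
        (P V q ↔ p V (q.1.comp Polynomial.C, q.2))) :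
    Gd S (Sp R W m n) (fun V _ q => p V q ∧ IsUnit ((cev u).val q)) := by
  have key : ∀ (V : Type) [CommRing V] (f : R →+* V) (t : V),
      (Polynomial.eval₂RingHom f t).comp Polynomial.C = f := by
    intro V _ f t
    ext b
    simp
  have key2 : ∀ (V : Type) [CommRing V] (q : (Sp R W m n).obj V),
      IsUnit (ev q.1 q.2.2.2 u) →
      ev (Polynomial.eval₂RingHom q.1 (ev q.1 q.2.2.2 v * Ring.inverse (ev q.1 q.2.2.2 u)))
        q.2.2.2 (pen v u) = 0 := by
    intro V _ q hu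
    rw [ev_pen, key, Polynomial.coe_eval₂RingHom, Polynomial.eval₂_X]
    have h4 := inv_smul hu
    linear_combination (-ev q.1 q.2.2.2 v) * h4
  refine h.iso (G := Sp R W m n)
    (fun V _ (q : (Sp (Polynomial R) W m n).obj V) => (q.1.comp Polynomial.C, q.2))
    (fun V _ (q : (Sp R W m n).obj V) => (Polynomial.eval₂RingHom q.1
      (ev q.1 q.2.2.2 v * Ring.inverse (ev q.1 q.2.2.2 u)), q.2)) ?_ ?_ ?_ ?_ ?_
  · rintro V _ q ⟨⟨h1, h2⟩, h3⟩
    exact ⟨(hp V q h2 h3).1 h1, h3⟩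
  · rintro V _ q ⟨h1, h2⟩
    have h5 : IsUnit (ev (Polynomial.eval₂RingHom q.1
        (ev q.1 q.2.2.2 v * Ring.inverse (ev q.1 q.2.2.2 u))) q.2.2.2 (ext u)) := by
      rw [ev_ext, key]
      exact h2
    refine ⟨⟨(hp V _ (key2 V q h2) h5).2 ?_, key2 V q h2⟩, h5⟩
    rw [key]
    exact h1
  · rintro V _ q ⟨⟨h1, h2⟩, h3⟩
    refine Prod.ext ?_ rfl
    have h3 : IsUnit (ev (q.1.comp Polynomial.C) q.2.2.2 u) := h3
    have h4 := inv_smul h3
    have h2 : ev q.1 q.2.2.2 (pen v u) = 0 := h2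
    rw [ev_pen] at h2
    apply Polynomial.ringHom_ext
    · intro b
      simp
    · change Polynomial.eval₂RingHom _ _ Polynomial.X = q.1 Polynomial.X
      rw [Polynomial.coe_eval₂RingHom, Polynomial.eval₂_X]
      linear_combination (Ring.inverse (ev (q.1.comp Polynomial.C) q.2.2.2 u)) * h2 +
        q.1 Polynomial.X * h4
  · rintro V _ q -
    exact Prod.ext (key V _ _) rfl
  · rintro V V' _ _ f q -
    rfl

/-- the predicate of a system with one bilinear equation -/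
abbrev P1 (Λ : Finset (Lf R n)) (e : Bf R m n) : Pr (Sp R W m n) :=
  fun _ _ p => (∀ l ∈ Λ, ev p.1 p.2.2.2 l = 0) ∧ bv p.1 p.2.2.1 p.2.2.2 e = 0

/-- the predicate of a system with two bilinear equations -/
abbrev P2 (Λ : Finset (Lf R n)) (e e' : Bf R m n) : Pr (Sp R W m n) :=
  fun _ _ p => (∀ l ∈ Λ, ev p.1 p.2.2.2 l = 0) ∧ bv p.1 p.2.2.1 p.2.2.2 e = 0 ∧
    bv p.1 p.2.2.1 p.2.2.2 e' = 0

/-- the predicate of a linear system -/
abbrev P0 (Λ : Finset (Lf R n)) : Pr (Sp R W m n) :=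
  fun _ _ p => ∀ l ∈ Λ, ev p.1 p.2.2.2 l = 0

theorem lin (h0 : LinOK S R W) (Λ : Finset (Lf R n)) : Gd S (Sp R W m n) (P0 Λ) :=
  (h0 m n Λ).congr (fun V _ p => by simp [Ps, P0])

theorem gd_opn0 (hS : SOps S) (h0 : LinOK S R W) (Λ : Finset (Lf R n)) (u : Lf R n) :
    Gd S (Sp R W m n) (fun V _ q => (P0 Λ) V q ∧ IsUnit ((cev u).val q)) := by
  classical
  refine (lin h0 Λ).opn hS (cev u) ((lin h0 (insert u Λ)).congr ?_)
  intro V _ p
  simp only [P0, Finset.forall_mem_insert, cev]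
  exact and_comm

theorem ft1 (hR : Algebra.FiniteType ℤ R) (hW : Algebra.FiniteType ℤ W) (Λ : Finset (Lf R n))
    (e : Bf R m n) : Gd Ft (Sp R W m n) (P1 Λ e) := by
  classical
  exact (gd_ft hR hW Λ {e}).congr (fun V _ p => by simp [Ps, P1])

theorem ft2 (hR : Algebra.FiniteType ℤ R) (hW : Algebra.FiniteType ℤ W) (Λ : Finset (Lf R n))
    (e e' : Bf R m n) : Gd Ft (Sp R W m n) (P2 Λ e e') := by
  classical
  exact (gd_ft hR hW Λ {e, e'}).congr (fun V _ p => by simp [Ps, P2])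

/-- **One bilinear equation.** -/
theorem bil1 (hS : SOps S) (hR : Algebra.FiniteType ℤ R) (hW : Algebra.FiniteType ℤ W)
    (h0 : LinOK S R W) (Λ : Finset (Lf R n)) (e : Bf R m n) : Gd S (Sp R W m n) (P1 Λ e) := by
  classical
  induction m generalizing Λ with
  | zero =>
    refine (lin h0 (insert e.2 Λ)).congr ?_
    intro V _ p
    simp only [P0, P1, Finset.forall_mem_insert, bv_zero]
    exact and_comm
  | succ m ih =>
    refine (ft1 hR hW Λ e).glue hS (cev (e.1 0)) ?_ ?_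
    · refine (gd_free hS (ih (insert (e.1 0) Λ) (tl e))).congr ?_
      intro V _ p
      simp only [P1, Finset.forall_mem_insert, cev]
      rw [bv_tail _ p.2.2.1]
      constructor
      · rintro ⟨⟨h1, h2⟩, h3⟩
        exact ⟨⟨h2, by rw [h1, zero_mul, zero_add]; exact h3⟩, h1⟩
      · rintro ⟨⟨h2, h3⟩, h1⟩
        rw [h1, zero_mul, zero_add] at h3
        exact ⟨⟨h1, h2⟩, h3⟩
    · exact gd_elim (p := P0 Λ) e (gd_opn0 hS h0 Λ (e.1 0))

theorem gd_opn1 (hS : SOps S) (hR : Algebra.FiniteType ℤ R) (hW : Algebra.FiniteType ℤ W)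
    (h0 : LinOK S R W) (Λ : Finset (Lf R n)) (e : Bf R m n) (u : Lf R n) :
    Gd S (Sp R W m n) (fun V _ q => (P1 Λ e) V q ∧ IsUnit ((cev u).val q)) := by
  classical
  refine (bil1 hS hR hW h0 Λ e).opn hS (cev u) ((bil1 hS hR hW h0 (insert u Λ) e).congr ?_)
  intro V _ p
  simp only [P1, Finset.forall_mem_insert, cev]
  tauto

/-- **Two bilinear equations.** -/
theorem bil2 (hS : SOps S) (hR : Algebra.FiniteType ℤ R) (hW : Algebra.FiniteType ℤ W)
    (h0 : LinOK S R W) (h1 : LinOK S (Polynomial R) W) (Λ : Finset (Lf R n)) (e e' : Bf R m n) :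
    Gd S (Sp R W m n) (P2 Λ e e') := by
  classical
  have hRX : Algebra.FiniteType ℤ (Polynomial R) :=
    Algebra.FiniteType.trans (S := R) hR inferInstance
  induction m generalizing Λ with
  | zero =>
    refine (lin h0 (insert e.2 (insert e'.2 Λ))).congr ?_
    intro V _ p
    simp only [P0, P2, Finset.forall_mem_insert, bv_zero]
    tauto
  | succ m ih =>
    refine (ft2 hR hW Λ e e').glue hS (cev (e.1 0)) ?_ ?_
    · -- the closed part
      have hft : Gd Ft (Sp R W (m + 1) n) (fun V _ q => (P2 Λ e e') V q ∧ (cev (e.1 0)).val q = 0) :=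
        (ft2 hR hW Λ e e').ft_cls (cev (e.1 0))
      refine hft.glue hS (cev (e'.1 0)) ?_ ?_
      · refine (gd_free hS (ih (insert (e.1 0) (insert (e'.1 0) Λ)) (tl e) (tl e'))).congr ?_
        intro V _ p
        simp only [P2, Finset.forall_mem_insert, cev]
        rw [bv_tail _ p.2.2.1 _ e, bv_tail _ p.2.2.1 _ e']
        constructor
        · rintro ⟨⟨h1, h2, h3⟩, h4, h5⟩
          refine ⟨⟨⟨h3, ?_, ?_⟩, h1⟩, h2⟩
          · rw [h1, zero_mul, zero_add]; exact h4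
          · rw [h2, zero_mul, zero_add]; exact h5
        · rintro ⟨⟨⟨h3, h4, h5⟩, h1⟩, h2⟩
          rw [h1, zero_mul, zero_add] at h4
          rw [h2, zero_mul, zero_add] at h5
          exact ⟨⟨h1, h2, h3⟩, h4, h5⟩
      · have h2 := gd_elim (p := P1 (insert (e.1 0) Λ) (tl e)) e'
          (gd_opn1 hS hR hW h0 (insert (e.1 0) Λ) (tl e) (e'.1 0))
        refine h2.congr ?_
        intro V _ p
        simp only [P1, P2, Finset.forall_mem_insert, cev]
        rw [bv_tail _ p.2.2.1 _ e]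
        constructor
        · rintro ⟨⟨⟨⟨h1, h3⟩, h4⟩, h5⟩, h6⟩
          refine ⟨⟨⟨h3, ?_, h5⟩, h1⟩, h6⟩
          rw [h1, zero_mul, zero_add]; exact h4
        · rintro ⟨⟨⟨h3, h4, h5⟩, h1⟩, h6⟩
          rw [h1, zero_mul, zero_add] at h4
          exact ⟨⟨⟨⟨h1, h3⟩, h4⟩, h5⟩, h6⟩
    · -- the open part
      have h2 := gd_opn1 (m := m) hS hRX hW h1 (insert (pen (e'.1 0) (e.1 0)) (Λ.image ext))
        (bpen (tl e') (tl e)) (ext (e.1 0))
      have h3 := gd_lam (p := fun V _ q => (P0 Λ) V q ∧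
          ev q.1 q.2.2.2 (e.1 0) * bv q.1 q.2.2.1 q.2.2.2 (tl e') -
            ev q.1 q.2.2.2 (e'.1 0) * bv q.1 q.2.2.1 q.2.2.2 (tl e) = 0)
        (P := fun V _ q => (∀ l ∈ Λ, ev q.1 q.2.2.2 (ext l) = 0) ∧
          bv q.1 q.2.2.1 q.2.2.2 (bpen (tl e') (tl e)) = 0) (e.1 0) (e'.1 0)
        (h2.congr (fun V _ q => by
          simp only [P1, Finset.forall_mem_insert, Finset.forall_mem_image]
          tauto)) (fun V _ q hq hu => by
          simp only [P0, ev_ext]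
          rw [ev_pen] at hq
          rw [ev_ext] at hu
          rw [bv_bpen]
          refine and_congr Iff.rfl ?_
          rw [← hu.mul_right_eq_zero (b := bv (q.1.comp Polynomial.C) q.2.2.1 q.2.2.2 (tl e') -
            q.1 Polynomial.X * bv (q.1.comp Polynomial.C) q.2.2.1 q.2.2.2 (tl e))]
          constructor
          · intro h
            linear_combination h - bv (q.1.comp Polynomial.C) q.2.2.1 q.2.2.2 (tl e) * hq
          · intro h
            linear_combination h + bv (q.1.comp Polynomial.C) q.2.2.1 q.2.2.2 (tl e) * hq)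
      have h4 := gd_elim e h3
      refine h4.congr ?_
      intro V _ p
      simp only [P0, P2, cev]
      have h5 := bv_tail p.1 p.2.2.1 p.2.2.2 e
      have h6 := bv_tail p.1 p.2.2.1 p.2.2.2 e'
      constructor
      · rintro ⟨⟨⟨h7, h8⟩, h9⟩, h10⟩
        refine ⟨⟨h7, h9, ?_⟩, h10⟩
        rw [← h10.mul_right_eq_zero]
        rw [h9] at h5
        rw [h6]
        linear_combination h8 - ev p.1 p.2.2.2 (e'.1 0) * h5
      · rintro ⟨⟨h7, h8, h9⟩, h10⟩
        refine ⟨⟨⟨h7, ?_⟩, h8⟩, h10⟩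
        rw [h8] at h5
        rw [h9] at h6
        linear_combination (-ev p.1 p.2.2.2 (e.1 0)) * h6 + ev p.1 p.2.2.2 (e'.1 0) * h5

end Pool.Agent.Helper20.BL
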