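import Pool.Agent.Helper65.Mor.Fn
import Pool.Agent.Helper87.CC.SOps

/-!
# Predicates on functors of points and classes of rings closed under cut and paste
-/

namespace Pool.Agent.Helper20.BL

open Pool.Agent.Helper65.Mor
open Pool.Agent.Helper65.Mor.Fn
open Pool.Agent.Helper87.CC

/-- predicates on the points of a functor -/
abbrev Pr (F : Fn) := ∀ (V : Type) [CommRing V], F.obj V → Prop

/-- `(A, a)` represents the points of `F` with the property `p` -/
structure Rp (F : Fn) (p : Pr F) (A : Type) [CommRing A] (a : F.obj A) : Prop where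
  mem : ∀ (V : Type) [CommRing V] (f : A →+* V), p V (F.map f a)
  ex : ∀ (V : Type) [CommRing V] (x : F.obj V), p V x → ∃ f : A →+* V, F.map f a = x
  uniq : ∀ (V : Type) [CommRing V] (f g : A →+* V), F.map f a = F.map g a → f = g

section

variable {F G : Fn} {p q : Pr F} {A : Type} [CommRing A] {a : F.obj A}

theorem Rp.equiv (h : Rp F p A a) {B : Type} [CommRing B] {b : F.obj B} (h' : Rp F p B b) :
    Nonempty (A ≃+* B) := by
  obtain ⟨f, hf⟩ := h.ex B b (by simpa [F.id_map] using h'.mem B (RingHom.id B))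
  obtain ⟨g, hg⟩ := h'.ex A a (by simpa [F.id_map] using h.mem A (RingHom.id A))
  refine ⟨RingEquiv.ofRingHom f g ?_ ?_⟩
  · apply h'.uniq
    rw [F.comp_map, hg, hf, F.id_map]
  · apply h.uniq
    rw [F.comp_map, hf, hg, F.id_map]

theorem Rp.congr (h : Rp F p A a) (hpq : ∀ (V : Type) [CommRing V] (x : F.obj V), p V x ↔ q V x) :
    Rp F q A a :=
  ⟨fun V _ f => (hpq V _).1 (h.mem V f), fun V _ x hx => h.ex V x ((hpq V x).2 hx), h.uniq⟩

theorem Rp.cls (h : Rp F p A a) (u : Coord F) :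
    Rp F (fun V _ x => p V x ∧ u.val x = 0) (A ⧸ Ideal.span {u.val a})
      (F.map (Ideal.Quotient.mk (Ideal.span {u.val a})) a) := by
  refine ⟨?_, ?_, ?_⟩
  · intro V _ f
    rw [← F.comp_map]
    refine ⟨h.mem V _, ?_⟩
    rw [← u.nat, RingHom.comp_apply, Ideal.Quotient.eq_zero_iff_mem.2
      (Ideal.mem_span_singleton_self _), map_zero]
  · rintro V _ x ⟨hx, hu⟩
    obtain ⟨f, rfl⟩ := h.ex V x hx
    have hz : ∀ b ∈ Ideal.span {u.val a}, f b = 0 := by
      intro b hb
      obtain ⟨c, rfl⟩ := Ideal.mem_span_singleton'.1 hb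
      rw [map_mul, u.nat, hu, mul_zero]
    refine ⟨Ideal.Quotient.lift _ f hz, ?_⟩
    rw [← F.comp_map]
    congr 1
  · intro V _ f g hfg
    rw [← F.comp_map, ← F.comp_map] at hfg
    exact Ideal.Quotient.ringHom_ext (h.uniq V _ _ hfg)

theorem Rp.opn (h : Rp F p A a) (u : Coord F) :
    Rp F (fun V _ x => p V x ∧ IsUnit (u.val x)) (Localization.Away (u.val a))
      (F.map (algebraMap A (Localization.Away (u.val a))) a) := by
  refine ⟨?_, ?_, ?_⟩
  · intro V _ f
    rw [← F.comp_map]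
    refine ⟨h.mem V _, ?_⟩
    rw [← u.nat, RingHom.comp_apply]
    exact (IsLocalization.Away.algebraMap_isUnit (u.val a)).map f
  · rintro V _ x ⟨hx, hu⟩
    obtain ⟨f, rfl⟩ := h.ex V x hx
    rw [← u.nat] at hu
    refine ⟨IsLocalization.Away.lift (u.val a) hu, ?_⟩
    rw [← F.comp_map, IsLocalization.Away.lift_comp]
  · intro V _ f g hfg
    rw [← F.comp_map, ← F.comp_map] at hfg
    exact IsLocalization.ringHom_ext (Submonoid.powers (u.val a)) (h.uniq V _ _ hfg)

theorem Rp.line (h : Rp F p A a) :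
    Rp F.line (fun V _ x => p V x.1) (Polynomial A) (F.map Polynomial.C a, Polynomial.X) := by
  refine ⟨?_, ?_, ?_⟩
  · intro V _ f
    change p V (F.map f (F.map _ a))
    rw [← F.comp_map]
    exact h.mem V _
  · rintro V _ ⟨x, t⟩ hx
    obtain ⟨f, rfl⟩ := h.ex V x hx
    refine ⟨Polynomial.eval₂RingHom f t, Prod.ext ?_ ?_⟩
    · change F.map _ (F.map _ a) = F.map f a
      rw [← F.comp_map]
      congr 1
      ext b
      simp
    · change Polynomial.eval₂RingHom f t Polynomial.X = t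
      simp
  · intro V _ f g hfg
    have h1 : F.map f (F.map _ a) = F.map g (F.map _ a) := congrArg Prod.fst hfg
    have h2 : f Polynomial.X = g Polynomial.X := congrArg Prod.snd hfg
    rw [← F.comp_map, ← F.comp_map] at h1
    have h3 := h.uniq V _ _ h1
    apply Polynomial.ringHom_ext
    · intro b
      exact RingHom.congr_fun h3 b
    · exact h2

theorem Rp.iso {q : Pr G} (h : Rp F p A a)
    (hom : ∀ (V : Type) [CommRing V], F.obj V → G.obj V)
    (inv : ∀ (V : Type) [CommRing V], G.obj V → F.obj V)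
    (h1 : ∀ (V : Type) [CommRing V] (x : F.obj V), p V x → q V (hom V x))
    (h2 : ∀ (V : Type) [CommRing V] (y : G.obj V), q V y → p V (inv V y))
    (h3 : ∀ (V : Type) [CommRing V] (x : F.obj V), p V x → inv V (hom V x) = x)
    (h4 : ∀ (V : Type) [CommRing V] (y : G.obj V), q V y → hom V (inv V y) = y)
    (h5 : ∀ (V V' : Type) [CommRing V] [CommRing V'] (f : V →+* V') (x : F.obj V), p V x →
      G.map f (hom V x) = hom V' (F.map f x)) : Rp G q A (hom A a) := by
  have hpa : p A a := by simpa [F.id_map] using h.mem A (RingHom.id A)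
  refine ⟨?_, ?_, ?_⟩
  · intro V _ f
    rw [h5 A V f a hpa]
    exact h1 V _ (h.mem V f)
  · intro V _ y hy
    obtain ⟨f, hf⟩ := h.ex V (inv V y) (h2 V y hy)
    refine ⟨f, ?_⟩
    rw [h5 A V f a hpa, hf, h4 V y hy]
  · intro V _ f g hfg
    rw [h5 A V f a hpa, h5 A V g a hpa] at hfg
    apply h.uniq
    rw [← h3 V _ (h.mem V f), hfg, h3 V _ (h.mem V g)]

end

/-- the points of `F` with the property `p` are represented by a member of `M` -/
def Gd (M : ∀ (A : Type) [CommRing A], Prop) (F : Fn) (p : Pr F) : Prop :=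
  ∃ (A : Type) (_ : CommRing A) (a : F.obj A), Rp F p A a ∧ M A

/-- finitely generated rings -/
def Ft (A : Type) [CommRing A] : Prop := Algebra.FiniteType ℤ A

section

variable {M : ∀ (A : Type) [CommRing A], Prop} {F G : Fn} {p q : Pr F}

theorem Gd.congr (h : Gd M F p) (hpq : ∀ (V : Type) [CommRing V] (x : F.obj V), p V x ↔ q V x) :
    Gd M F q := by
  obtain ⟨A, _, a, ha, hA⟩ := h
  exact ⟨A, _, a, ha.congr hpq, hA⟩

theorem Gd.iso {q : Pr G} (h : Gd M F p)
    (hom : ∀ (V : Type) [CommRing V], F.obj V → G.obj V)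
    (inv : ∀ (V : Type) [CommRing V], G.obj V → F.obj V)
    (h1 : ∀ (V : Type) [CommRing V] (x : F.obj V), p V x → q V (hom V x))
    (h2 : ∀ (V : Type) [CommRing V] (y : G.obj V), q V y → p V (inv V y))
    (h3 : ∀ (V : Type) [CommRing V] (x : F.obj V), p V x → inv V (hom V x) = x)
    (h4 : ∀ (V : Type) [CommRing V] (y : G.obj V), q V y → hom V (inv V y) = y)
    (h5 : ∀ (V V' : Type) [CommRing V] [CommRing V'] (f : V →+* V') (x : F.obj V), p V x →
      G.map f (hom V x) = hom V' (F.map f x)) : Gd M G q := by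
  obtain ⟨A, _, a, ha, hA⟩ := h
  exact ⟨A, _, _, ha.iso hom inv h1 h2 h3 h4 h5, hA⟩

theorem Gd.ft_cls (h : Gd Ft F p) (u : Coord F) : Gd Ft F (fun V _ x => p V x ∧ u.val x = 0) := by
  obtain ⟨A, _, a, ha, hA⟩ := h
  have : Algebra.FiniteType ℤ A := hA
  exact ⟨_, _, _, ha.cls u, Algebra.FiniteType.of_surjective
    (Ideal.Quotient.mk (Ideal.span {u.val a})).toIntAlgHom Ideal.Quotient.mk_surjective⟩

variable {S : ∀ (A : Type) [CommRing A], Prop}

theorem Gd.ft (hS : SOps S) (h : Gd S F p) : Gd Ft F p := by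
  obtain ⟨A, _, a, ha, hA⟩ := h
  exact ⟨A, _, a, ha, hS.ft A hA⟩

theorem Gd.mem (hS : SOps S) (h : Gd S F p) {A : Type} [CommRing A] {a : F.obj A}
    (ha : Rp F p A a) : S A := by
  obtain ⟨B, _, b, hb, hB⟩ := h
  obtain ⟨e⟩ := hb.equiv ha
  exact hS.iso _ _ e hB

theorem Gd.glue (hS : SOps S) (h : Gd Ft F p) (u : Coord F)
    (h1 : Gd S F (fun V _ x => p V x ∧ u.val x = 0))
    (h2 : Gd S F (fun V _ x => p V x ∧ IsUnit (u.val x))) : Gd S F p := by
  obtain ⟨A, _, a, ha, hA⟩ := h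
  exact ⟨A, _, a, ha, hS.glue _ (u.val a) hA (h1.mem hS (ha.cls u)) (h2.mem hS (ha.opn u))⟩

theorem Gd.opn (hS : SOps S) (h : Gd S F p) (u : Coord F)
    (h1 : Gd S F (fun V _ x => p V x ∧ u.val x = 0)) :
    Gd S F (fun V _ x => p V x ∧ IsUnit (u.val x)) := by
  obtain ⟨A, _, a, ha, hA⟩ := h
  exact ⟨_, _, _, ha.opn u, hS.opn _ (u.val a) hA (h1.mem hS (ha.cls u))⟩

theorem Gd.line (hS : SOps S) (h : Gd S F p) : Gd S F.line (fun V _ x => p V x.1) := by
  obtain ⟨A, _, a, ha, hA⟩ := h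
  exact ⟨_, _, _, ha.line, hS.poly _ hA⟩

end

/-- inverses of units are natural -/
theorem map_inv_unit {V V' : Type} [CommRing V] [CommRing V'] (f : V →+* V') {r : V}
    (hr : IsUnit r) : f (Ring.inverse r) = Ring.inverse (f r) := by
  have h1 : f r * f (Ring.inverse r) = 1 := by
    rw [← map_mul, Ring.mul_inverse_cancel r hr, map_one]
  have h2 : f r * Ring.inverse (f r) = 1 := Ring.mul_inverse_cancel _ (hr.map f)
  have h3 : IsUnit (f r) := hr.map f
  exact h3.mul_left_cancel (h1.trans h2.symm)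

end Pool.Agent.Helper20.BL
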