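import Pool.Agent.Helper20.BL.Fun
import Pool.Agent.Helper87.CC.Fam

/-!
# Systems of bilinear equations
-/

namespace Pool.Agent.Helper20.BL

open Pool.Agent.Helper65.Mor
open Pool.Agent.Helper65.Mor.Fn
open Pool.Agent.Helper87.CC

/-- affine linear forms in `n` variables -/
abbrev Lf (R : Type) (n : ℕ) := Option (Fin n) → R

section

variable {R : Type} [CommRing R] {m n : ℕ} {E : Type} [CommRing E]

/-- the value of an affine linear form -/
def ev (f : R →+* E) (y : Fin n → E) (l : Lf R n) : E := f (l none) + ∑ j, f (l (some j)) * y j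

theorem ev_nat {E' : Type} [CommRing E'] (φ : E →+* E') (f : R →+* E) (y : Fin n → E)
    (l : Lf R n) : φ (ev f y l) = ev (φ.comp f) (fun j => φ (y j)) l := by
  simp [ev, map_sum]

/-- pencils of forms -/
noncomputable def pen (l l' : Lf R n) : Lf (Polynomial R) n :=
  fun i => Polynomial.C (l i) - Polynomial.X * Polynomial.C (l' i)

/-- extension of the coefficients -/
noncomputable def ext (l : Lf R n) : Lf (Polynomial R) n := fun i => Polynomial.C (l i)

theorem ev_ext (F : Polynomial R →+* E) (y : Fin n → E) (l : Lf R n) :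
    ev F y (ext l) = ev (F.comp Polynomial.C) y l := rfl

theorem ev_pen (F : Polynomial R →+* E) (y : Fin n → E) (l l' : Lf R n) :
    ev F y (pen l l') = ev (F.comp Polynomial.C) y l -
      F Polynomial.X * ev (F.comp Polynomial.C) y l' := by
  simp only [ev, pen, map_sub, map_mul, RingHom.comp_apply, sub_mul, Finset.sum_sub_distrib,
    mul_add, Finset.mul_sum]
  simp only [mul_assoc]
  ring

/-- bilinear equations -/
abbrev Bf (R : Type) (m n : ℕ) := (Fin m → Lf R n) × Lf R n

/-- the value of a bilinear equation -/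
def bv (f : R →+* E) (x : Fin m → E) (y : Fin n → E) (e : Bf R m n) : E :=
  (∑ k, ev f y (e.1 k) * x k) + ev f y e.2

theorem bv_nat {E' : Type} [CommRing E'] (φ : E →+* E') (f : R →+* E) (x : Fin m → E)
    (y : Fin n → E) (e : Bf R m n) :
    φ (bv f x y e) = bv (φ.comp f) (fun k => φ (x k)) (fun j => φ (y j)) e := by
  simp [bv, map_sum, ev_nat]

/-- pencils of equations -/
noncomputable def bpen (e e' : Bf R m n) : Bf (Polynomial R) m n :=
  (fun k => pen (e.1 k) (e'.1 k), pen e.2 e'.2)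

theorem bv_bpen (F : Polynomial R →+* E) (x : Fin m → E) (y : Fin n → E) (e e' : Bf R m n) :
    bv F x y (bpen e e') = bv (F.comp Polynomial.C) x y e -
      F Polynomial.X * bv (F.comp Polynomial.C) x y e' := by
  simp only [bv, bpen, ev_pen, sub_mul, Finset.sum_sub_distrib, mul_add, Finset.mul_sum]
  simp only [mul_assoc]
  ring

/-- without the first unknown -/
def tl (e : Bf R (m + 1) n) : Bf R m n := (fun k => e.1 k.succ, e.2)

theorem bv_cons (f : R →+* E) (t : E) (x : Fin m → E) (y : Fin n → E) (e : Bf R (m + 1) n) :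
    bv f (Fin.cons t x : Fin (m + 1) → E) y e = ev f y (e.1 0) * t + bv f x y (tl e) := by
  simp only [bv, tl, Fin.sum_univ_succ, Fin.cons_zero, Fin.cons_succ]
  ring

theorem bv_tail (f : R →+* E) (x : Fin (m + 1) → E) (y : Fin n → E) (e : Bf R (m + 1) n) :
    bv f x y e = ev f y (e.1 0) * x 0 + bv f (fun k => x k.succ) y (tl e) := by
  rw [← bv_cons]
  congr 1
  funext k
  refine Fin.cases rfl (fun _ => rfl) k

theorem bv_zero (f : R →+* E) (x : Fin 0 → E) (y : Fin n → E) (e : Bf R 0 n) :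
    bv f x y e = ev f y e.2 := by
  simp [bv]

end

/-- the space with coordinates `x`, `y` over `R ⊗ W` -/
@[reducible] def Sp (R W : Type) [CommRing R] [CommRing W] (m n : ℕ) : Fn where
  obj E _ := (R →+* E) × (W →+* E) × (Fin m → E) × (Fin n → E)
  map φ p := (φ.comp p.1, φ.comp p.2.1, fun k => φ (p.2.2.1 k), fun j => φ (p.2.2.2 j))
  id_map _ := rfl
  comp_map _ _ _ := rfl

section

variable {R W : Type} [CommRing R] [CommRing W] {m n : ℕ}

/-- the value of a linear form as a function -/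
def cev (l : Lf R n) : Coord (Sp R W m n) where
  val p := ev p.1 p.2.2.2 l
  nat φ p := ev_nat φ p.1 p.2.2.2 l

/-- the value of a bilinear form as a function -/
def cbv (e : Bf R m n) : Coord (Sp R W m n) where
  val p := bv p.1 p.2.2.1 p.2.2.2 e
  nat φ p := bv_nat φ p.1 p.2.2.1 p.2.2.2 e

variable (W) in
/-- the points which satisfy a system of linear equations in `y` and a system of bilinear
equations -/
def Ps (Λ : Finset (Lf R n)) (B : Finset (Bf R m n)) : Pr (Sp R W m n) :=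
  fun _ _ p => (∀ l ∈ Λ, ev p.1 p.2.2.2 l = 0) ∧ ∀ e ∈ B, bv p.1 p.2.2.1 p.2.2.2 e = 0

/-- polynomial systems -/
theorem rp_sys (T : Set (MvPolynomial (Fin m ⊕ Fin n) R)) :
    ∃ a, Rp (Sp R W m n) (fun _ _ p => ∀ q ∈ T,
      MvPolynomial.eval₂ p.1 (Sum.elim p.2.2.1 p.2.2.2) q = 0)
      (Ten W (MvPolynomial (Fin m ⊕ Fin n) R ⧸ Ideal.span T)) a := by
  have h := isFam_ten W T
  refine ⟨(((tinr W (MvPolynomial (Fin m ⊕ Fin n) R ⧸ Ideal.span T)).comp
      (Ideal.Quotient.mk _)).comp MvPolynomial.C,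
    tinl W (MvPolynomial (Fin m ⊕ Fin n) R ⧸ Ideal.span T),
    fun k => tinr W (MvPolynomial (Fin m ⊕ Fin n) R ⧸ Ideal.span T)
    (Ideal.Quotient.mk _ (MvPolynomial.X (Sum.inl k))), fun j =>
    tinr W (MvPolynomial (Fin m ⊕ Fin n) R ⧸ Ideal.span T)
    (Ideal.Quotient.mk _ (MvPolynomial.X (Sum.inr j)))), ?_, ?_, ?_⟩
  · intro V _ f q hq
    have h1 := congrArg f (h.zero q hq)
    rw [map_zero, MvPolynomial.hom_eval₂] at h1
    rw [← h1]
    congr 1
    funext s
    rcases s with s | s <;> rfl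
  · rintro V _ ⟨f, g, x, y⟩ hx
    obtain ⟨u, hu1, hu2, hu3⟩ := h.ex V f g (Sum.elim x y) hx
    refine ⟨u, ?_⟩
    refine Prod.ext hu1 (Prod.ext hu2 (Prod.ext ?_ ?_))
    · funext k
      exact hu3 (Sum.inl k)
    · funext j
      exact hu3 (Sum.inr j)
  · intro V _ f g hfg
    apply h.uniq V f g (congrArg Prod.fst hfg) (congrArg (fun p => p.2.1) hfg)
    rintro (k | j)
    · exact congrFun (congrArg (fun p => p.2.2.1) hfg) k
    · exact congrFun (congrArg (fun p => p.2.2.2) hfg) j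

variable (m) in
/-- the polynomial of a linear form -/
noncomputable def lpo (l : Lf R n) : MvPolynomial (Fin m ⊕ Fin n) R :=
  MvPolynomial.C (l none) + ∑ j, MvPolynomial.C (l (some j)) * MvPolynomial.X (Sum.inr j)

/-- the polynomial of a bilinear form -/
noncomputable def bpo (e : Bf R m n) : MvPolynomial (Fin m ⊕ Fin n) R :=
  (∑ k, lpo m (e.1 k) * MvPolynomial.X (Sum.inl k)) + lpo m e.2

theorem eval_lpo {E : Type} [CommRing E] (f : R →+* E) (x : Fin m → E) (y : Fin n → E)
    (l : Lf R n) : MvPolynomial.eval₂ f (Sum.elim x y) (lpo m l) = ev f y l := by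
  simp [lpo, ev, MvPolynomial.eval₂_add, MvPolynomial.eval₂_sum, MvPolynomial.eval₂_mul]

theorem eval_bpo {E : Type} [CommRing E] (f : R →+* E) (x : Fin m → E) (y : Fin n → E)
    (e : Bf R m n) : MvPolynomial.eval₂ f (Sum.elim x y) (bpo e) = bv f x y e := by
  simp [bpo, bv, MvPolynomial.eval₂_add, MvPolynomial.eval₂_sum, MvPolynomial.eval₂_mul, eval_lpo]

theorem ft_sys (hR : Algebra.FiniteType ℤ R) (hW : Algebra.FiniteType ℤ W)
    (T : Set (MvPolynomial (Fin m ⊕ Fin n) R)) :
    Algebra.FiniteType ℤ (Ten W (MvPolynomial (Fin m ⊕ Fin n) R ⧸ Ideal.span T)) :=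
  ft_ten hW (ft_alg hR inferInstance)

theorem gd_ft (hR : Algebra.FiniteType ℤ R) (hW : Algebra.FiniteType ℤ W)
    (Λ : Finset (Lf R n)) (B : Finset (Bf R m n)) : Gd Ft (Sp R W m n) (Ps W Λ B) := by
  classical
  obtain ⟨a, ha⟩ := rp_sys (W := W) (m := m) (n := n) (R := R)
    ((Λ.image (lpo m) ∪ B.image bpo : Finset (MvPolynomial (Fin m ⊕ Fin n) R)) : Set _)
  refine ⟨_, _, a, ha.congr ?_, ft_sys hR hW _⟩
  intro V _ p
  simp only [Finset.coe_union, Finset.coe_image, Set.mem_union, Set.mem_image, Finset.mem_coe, Ps]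
  constructor
  · intro h
    refine ⟨fun l hl => ?_, fun e he => ?_⟩
    · have := h _ (Or.inl ⟨l, hl, rfl⟩)
      rwa [eval_lpo] at this
    · have := h _ (Or.inr ⟨e, he, rfl⟩)
      rwa [eval_bpo] at this
  · rintro ⟨h1, h2⟩ q (⟨l, hl, rfl⟩ | ⟨e, he, rfl⟩)
    · rw [eval_lpo]
      exact h1 l hl
    · rw [eval_bpo]
      exact h2 e he

end

variable {S : ∀ (A : Type) [CommRing A], Prop}

/-- linear systems over `R` -/
def LinOK (S : ∀ (A : Type) [CommRing A], Prop) (R W : Type) [CommRing R] [CommRing W] : Prop :=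
  ∀ (m n : ℕ) (Λ : Finset (Lf R n)), Gd S (Sp R W m n) (Ps W Λ ∅)

/-- systems with `r` bilinear equations over `R` -/
def BilOK (S : ∀ (A : Type) [CommRing A], Prop) (R W : Type) [CommRing R] [CommRing W] (r : ℕ) :
    Prop :=
  ∀ (m n : ℕ) (Λ : Finset (Lf R n)) (B : Finset (Bf R m n)), B.card ≤ r →
    Gd S (Sp R W m n) (Ps W Λ B)

section

variable {R W : Type} [CommRing R] [CommRing W] {m n : ℕ}

/-- a free unknown -/
theorem gd_free (hS : SOps S) {p : Pr (Sp R W m n)} (h : Gd S (Sp R W m n) p) :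
    Gd S (Sp R W (m + 1) n) (fun V _ q => p V (q.1, q.2.1, fun k => q.2.2.1 k.succ, q.2.2.2)) := by
  refine (h.line hS).iso (G := Sp R W (m + 1) n)
    (fun V _ (q : (Sp R W m n).line.obj V) => (q.1.1, q.1.2.1,
      (Fin.cons q.2 q.1.2.2.1 : Fin (m + 1) → V), q.1.2.2.2))
    (fun V _ (q : (Sp R W (m + 1) n).obj V) =>
      ((q.1, q.2.1, fun k => q.2.2.1 k.succ, q.2.2.2), q.2.2.1 0)) ?_ ?_ ?_ ?_ ?_
  · intro V _ q hq
    exact hq
  · intro V _ q hq
    exact hq
  · intro V _ q hq
    rfl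
  · intro V _ q hq
    refine Prod.ext rfl (Prod.ext rfl (Prod.ext ?_ rfl))
    funext k
    exact Fin.cases rfl (fun _ => rfl) k
  · intro V V' _ _ f q hq
    refine Prod.ext rfl (Prod.ext rfl (Prod.ext ?_ rfl))
    funext k
    exact Fin.cases rfl (fun _ => rfl) k

end

end Pool.Agent.Helper20.BL
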